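import Pool.Agent.Lib.VC.G1

/-!
Row Bl (130 lines): Gaussian sums for the weighted variance.

PROOF. Induction on `T`: `T = {b0}` (only `y = 0`, both sides are `1`: `wvar = 0`, `c b0 / c b0 = 1`) and
`T → insert b T`, `b ∉ T`. With `N = ∑_{T} c`, `M = (∑_T c y) / N`,
`wvar (insert b T) c y = wvar T c y + a (y b - M)^2`, `a = c b N / (c b + N)`. So the sum over
`insert b T` is the sum over `T` of `exp (-(s wvar T)) ∑_{y b} exp (-(s a (y b - M)^2))`
`≤ exp (..) (√(π/(s a)) + 1)` by `sum_exp_le`. Since `1 / 2 ≤ a ≤ K` one has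
`√(π/(s a)) + 1 = √(π/(s a)) (1 + √(s a / π)) ≤ √(1/a) √(π/s) (1 + √(s K / π))`, and
`√(1/a) √(N / ∏_T c) = √((N + c b) / (c b ∏_T c))`.
-/

set_option autoImplicit false

namespace Pool.Agent.Lib.VC

open Finset

/-- weighted variance `∑ c (y - mean)^2` -/
noncomputable def wvar {B : Type} (T : Finset B) (c : B → ℕ) (y : B → ℝ) : ℝ :=
  ∑ b ∈ T, c b * y b ^ 2 - (∑ b ∈ T, c b * y b) ^ 2 / ∑ b ∈ T, (c b : ℝ)

private lemma bl_sum_update {B : Type} [Fintype B] [DecidableEq B] (t : B → Finset ℤ) (b : B)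
    (htb : t b = {0}) (I : Finset ℤ) (f : (B → ℤ) → ℝ) :
    ∑ y ∈ Fintype.piFinset (Function.update t b I), f y
      = ∑ y ∈ Fintype.piFinset t, ∑ x ∈ I, f (Function.update y b x) := by
  rw [← Finset.sum_product']
  refine Finset.sum_nbij' (fun y => (Function.update y b 0, y b))
    (fun q => Function.update q.1 b q.2) ?_ ?_ ?_ ?_ ?_
  · intro y hy
    rw [Fintype.mem_piFinset] at hy
    rw [Finset.mem_product, Fintype.mem_piFinset]
    refine ⟨fun a => ?_, ?_⟩
    · by_cases h : a = b
      · subst h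
        simp [htb]
      · have := hy a
        simp only [Function.update_of_ne h] at this ⊢
        exact this
    · have := hy b
      simpa using this
  · intro q hq
    rw [Finset.mem_product, Fintype.mem_piFinset] at hq
    rw [Fintype.mem_piFinset]
    intro a
    by_cases h : a = b
    · subst h
      simpa using hq.2
    · simp only [Function.update_of_ne h]
      exact hq.1 a
  · intro y _
    simp
  · intro q hq
    rw [Finset.mem_product, Fintype.mem_piFinset] at hq
    have h1 : q.1 b = 0 := by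
      have := hq.1 b
      rw [htb] at this
      simpa using this
    ext a
    · by_cases h : a = b
      · subst h
        simp [h1]
      · simp [Function.update_of_ne h]
    · simp
  · intro y _
    simp

private lemma bl_wvar_insert {B : Type} [DecidableEq B] (c : B → ℕ) (T : Finset B) (b : B)
    (hb : b ∉ T) (y : B → ℝ) (hc : 0 < (c b : ℝ)) (hN : 0 < ∑ a ∈ T, (c a : ℝ)) :
    wvar (insert b T) c y = wvar T c y +
      (c b * (∑ a ∈ T, (c a : ℝ)) / (c b + ∑ a ∈ T, (c a : ℝ))) *
        (y b - (∑ a ∈ T, c a * y a) / ∑ a ∈ T, (c a : ℝ)) ^ 2 := by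
  unfold wvar
  rw [Finset.sum_insert hb, Finset.sum_insert hb, Finset.sum_insert hb]
  set N : ℝ := ∑ a ∈ T, (c a : ℝ)
  set L : ℝ := ∑ a ∈ T, c a * y a
  have h1 : (c b : ℝ) + N ≠ 0 := by positivity
  have h2 : N ≠ 0 := hN.ne'
  field_simp
  ring

private lemma bl_wvar_congr {B : Type} (c : B → ℕ) (T : Finset B) (y z : B → ℝ)
    (h : ∀ a ∈ T, y a = z a) : wvar T c y = wvar T c z := by
  unfold wvar
  rw [Finset.sum_congr rfl (fun a ha => by rw [h a ha]),
    Finset.sum_congr (s₁ := T) rfl (fun a ha => by rw [h a ha] : ∀ a ∈ T, (c a : ℝ) * y a = c a * z a)]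

private lemma bl_one {s K a : ℝ} (hs : 0 < s) (ha : 0 < a) (haK : a ≤ K) :
    √(Real.pi / (s * a)) + 1 ≤ √(1 / a) * ((1 + √(s * K / Real.pi)) * √(Real.pi / s)) := by
  have hpi := Real.pi_pos
  have hK : 0 < K := lt_of_lt_of_le ha haK
  have h1 : √(Real.pi / (s * a)) = √(1 / a) * √(Real.pi / s) := by
    rw [← Real.sqrt_mul (by positivity)]
    congr 1
    field_simp
  have h2 : √(s * K / Real.pi) * √(Real.pi / s) = √K := by
    rw [← Real.sqrt_mul (by positivity)]
    congr 1
    field_simp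
  have h3 : 1 ≤ √(1 / a) * √K := by
    rw [← Real.sqrt_mul (by positivity), Real.one_le_sqrt, one_div, ← div_eq_inv_mul,
      le_div_iff₀ ha]
    linarith
  calc √(Real.pi / (s * a)) + 1 ≤ √(1 / a) * √(Real.pi / s) + √(1 / a) * √K := by rw [h1]; linarith
    _ = √(1 / a) * (√(Real.pi / s) + √(s * K / Real.pi) * √(Real.pi / s)) := by rw [h2]; ring
    _ = _ := by ring

private lemma bl_main {B : Type} [Fintype B] [DecidableEq B] {s K : ℝ} (hs : 0 < s) (c : B → ℕ)
    (hc : ∀ b, 1 ≤ c b) (b0 : B) (S : ℕ) (U : Finset B) : b0 ∉ U →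
    ∑ b ∈ insert b0 U, (c b : ℝ) ≤ K →
    ∑ y ∈ Fintype.piFinset
        (fun b => if b ∈ U then Finset.Icc (-(S : ℤ)) S else {(0 : ℤ)}),
      Real.exp (-(s * wvar (insert b0 U) c (fun b => (y b : ℝ))))
    ≤ ((1 + √(s * K / Real.pi)) * √(Real.pi / s)) ^ U.card
        * √((∑ b ∈ insert b0 U, (c b : ℝ)) / ∏ b ∈ insert b0 U, (c b : ℝ)) := by
  have hcr : ∀ b, (1 : ℝ) ≤ c b := fun b => by exact_mod_cast hc b
  induction U using Finset.induction_on with
  | empty =>
    intro _ _
    have h0 : (0 : ℝ) < c b0 := lt_of_lt_of_le one_pos (hcr b0)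
    have h1 : (fun b : B => if b ∈ (∅ : Finset B) then Finset.Icc (-(S : ℤ)) S else {(0 : ℤ)})
        = fun _ => {(0 : ℤ)} := by
      funext b
      simp
    rw [h1]
    have h2 : Fintype.piFinset (fun _ : B => ({(0 : ℤ)} : Finset ℤ)) = {fun _ => 0} :=
      Fintype.piFinset_singleton _
    rw [h2, Finset.sum_singleton]
    have h3 : wvar (insert b0 ∅) c (fun _ => ((0 : ℤ) : ℝ)) = 0 := by
      unfold wvar
      simp
    rw [h3]
    simp [div_self h0.ne']
  | insert b U hbU ih =>
    intro hb0 hK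
    rw [Finset.mem_insert, not_or] at hb0
    obtain ⟨hne, hb0U⟩ := hb0
    have hbT : b ∉ insert b0 U := by
      rw [Finset.mem_insert, not_or]
      exact ⟨fun h => hne h.symm, hbU⟩
    have hins : insert b0 (insert b U) = insert b (insert b0 U) := Finset.insert_comm _ _ _
    rw [hins] at hK ⊢
    rw [Finset.sum_insert hbT] at hK
    set T := insert b0 U with hT
    set N : ℝ := ∑ a ∈ T, (c a : ℝ) with hN
    have hN0 : 0 < N := by
      have h1 : (c b0 : ℝ) ≤ N :=
        Finset.single_le_sum (f := fun a => (c a : ℝ)) (fun a _ => Nat.cast_nonneg _) (by simp [hT])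
      have := hcr b0
      linarith
    have hcb : (0 : ℝ) < c b := lt_of_lt_of_le one_pos (hcr b)
    have ih' := ih hb0U (by linarith)
    set G : ℝ := (1 + √(s * K / Real.pi)) * √(Real.pi / s) with hG
    have hG0 : 0 ≤ G := by positivity
    set a : ℝ := c b * N / (c b + N) with ha
    have ha0 : 0 < a := by positivity
    have haK : a ≤ K := by
      have h1 : a ≤ N := by
        rw [ha, div_le_iff₀ (by positivity)]
        nlinarith
      linarith
    set t : B → Finset ℤ := fun a => if a ∈ U then Finset.Icc (-(S : ℤ)) S else {(0 : ℤ)} with ht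
    have htb : t b = {0} := by simp [ht, hbU]
    have hupd : (fun a => if a ∈ insert b U then Finset.Icc (-(S : ℤ)) S else {(0 : ℤ)})
        = Function.update t b (Finset.Icc (-(S : ℤ)) S) := by
      funext x
      by_cases h : x = b
      · subst h
        simp
      · simp [ht, Finset.mem_insert, h]
    rw [hupd, bl_sum_update t b htb]
    have hstep : ∀ y ∈ Fintype.piFinset t,
        ∑ x ∈ Finset.Icc (-(S : ℤ)) S,
          Real.exp (-(s * wvar (insert b T) c (fun a => ((Function.update y b x a : ℤ) : ℝ))))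
        ≤ Real.exp (-(s * wvar T c (fun a => (y a : ℝ)))) * (√(1 / a) * G) := by
      intro y _
      have hval : ∀ x : ℤ, wvar (insert b T) c (fun a => ((Function.update y b x a : ℤ) : ℝ))
          = wvar T c (fun a => (y a : ℝ)) + a * ((x : ℝ) - (∑ a ∈ T, c a * (y a : ℝ)) / N) ^ 2 := by
        intro x
        rw [bl_wvar_insert c T b hbT _ hcb hN0]
        have e1 : ∀ a ∈ T, ((Function.update y b x a : ℤ) : ℝ) = (y a : ℝ) := by
          intro a haT
          have : a ≠ b := fun h => hbT (h ▸ haT)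
          rw [Function.update_of_ne this]
        rw [bl_wvar_congr c T _ _ e1]
        have e2 : ∑ a ∈ T, (c a : ℝ) * ((Function.update y b x a : ℤ) : ℝ) = ∑ a ∈ T, c a * (y a : ℝ) :=
          Finset.sum_congr rfl (fun a haT => by rw [e1 a haT])
        rw [e2, Function.update_self]
      have h1 := sum_exp_le (s := s * a) (by positivity) ((∑ a ∈ T, c a * (y a : ℝ)) / N)
        (Finset.Icc (-(S : ℤ)) S)
      have h2 := bl_one hs ha0 haK
      calc ∑ x ∈ Finset.Icc (-(S : ℤ)) S,
            Real.exp (-(s * wvar (insert b T) c (fun a => ((Function.update y b x a : ℤ) : ℝ))))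
          = ∑ x ∈ Finset.Icc (-(S : ℤ)) S, Real.exp (-(s * wvar T c (fun a => (y a : ℝ)))) *
              Real.exp (-(s * a * ((x : ℝ) - (∑ a ∈ T, c a * (y a : ℝ)) / N) ^ 2)) := by
            refine Finset.sum_congr rfl (fun x _ => ?_)
            rw [hval x, ← Real.exp_add]
            congr 1
            ring
        _ = Real.exp (-(s * wvar T c (fun a => (y a : ℝ)))) * ∑ x ∈ Finset.Icc (-(S : ℤ)) S,
              Real.exp (-(s * a * ((x : ℝ) - (∑ a ∈ T, c a * (y a : ℝ)) / N) ^ 2)) := by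
            rw [Finset.mul_sum]
        _ ≤ _ := by
            gcongr
            exact h1.trans h2
    refine (Finset.sum_le_sum hstep).trans ?_
    rw [← Finset.sum_mul]
    have hP0 : (0 : ℝ) < ∏ a ∈ T, (c a : ℝ) :=
      Finset.prod_pos (fun a _ => lt_of_lt_of_le one_pos (hcr a))
    calc (∑ y ∈ Fintype.piFinset t, Real.exp (-(s * wvar T c (fun a => (y a : ℝ))))) * (√(1 / a) * G)
        ≤ (G ^ U.card * √(N / ∏ a ∈ T, (c a : ℝ))) * (√(1 / a) * G) := by
          gcongr
      _ = G ^ (U.card + 1) * (√(N / ∏ a ∈ T, (c a : ℝ)) * √(1 / a)) := by ring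
      _ = G ^ (insert b U).card *
          √((∑ a ∈ insert b T, (c a : ℝ)) / ∏ a ∈ insert b T, (c a : ℝ)) := by
          rw [Finset.card_insert_of_notMem hbU, ← Real.sqrt_mul (by positivity),
            Finset.sum_insert hbT, Finset.prod_insert hbT]
          have e : ∑ x ∈ T, (c x : ℝ) = N := rfl
          rw [e]
          congr 2
          rw [ha]
          field_simp

theorem sum_blocks_le {B : Type} [Fintype B] [DecidableEq B] {s K : ℝ} (hs : 0 < s) (c : B → ℕ)
    (hc : ∀ b, 1 ≤ c b) (b0 : B) (S : ℕ) (T : Finset B) (hb : b0 ∈ T)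
    (hK : ∑ b ∈ T, (c b : ℝ) ≤ K) :
    ∑ y ∈ Fintype.piFinset
        (fun b => if b ∈ T.erase b0 then Finset.Icc (-(S : ℤ)) S else {(0 : ℤ)}),
      Real.exp (-(s * wvar T c (fun b => (y b : ℝ))))
    ≤ ((1 + √(s * K / Real.pi)) * √(Real.pi / s)) ^ (T.card - 1)
        * √((∑ b ∈ T, (c b : ℝ)) / ∏ b ∈ T, (c b : ℝ)) := by
  have h := bl_main (K := K) hs c hc b0 S (T.erase b0) (Finset.notMem_erase b0 T)
    (by rw [Finset.insert_erase hb]; exact hK)
  rw [Finset.insert_erase hb, Finset.card_erase_of_mem hb] at h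
  exact h

end Pool.Agent.Lib.VC
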