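import Mathlib

/-!
Row Cb (70 lines): number of centre maps `F` which are bad for a given `f`.

PROOF. `m = |image f|`. By `h` the set of bad `F` is contained in the union over `w ∈ W` of
`B_w = {F | ∀ v, F (f v) = F (f 0) + ρ (w v)}`. Restriction of `F` to the complement of
`(image f).erase (f 0)` is injective on `B_w`, so `|B_w| ≤ g^(N - (m - 1))`, `g = |G|`, and
`g^(N - (m-1)) g^(m-1) = g^N` because `m - 1 ≤ N`.
-/

set_option autoImplicit false

namespace Pool.Agent.Lib.VC

open Finset Classical

theorem card_bad_le {G : Type} [AddCommGroup G] [Fintype G] {k N : ℕ} {Z : Type}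
    (f : Fin (k + 1) → Fin N) (W : Finset (Fin (k + 1) → Z)) (ρ : Z → G)
    (bad : (Fin N → G) → Prop)
    (h : ∀ F, bad F → ∃ w ∈ W, ∀ v, ρ (w v) = F (f v) - F (f 0)) :
    (univ.filter fun F : Fin N → G => bad F).card * (Fintype.card G) ^ ((univ.image f).card - 1)
      ≤ W.card * (Fintype.card G) ^ N := by
  obtain ⟨I, hI⟩ : ∃ I, I = univ.image f := ⟨_, rfl⟩
  rw [← hI]
  have h0 : f 0 ∈ I := by
    rw [hI]
    exact mem_image_of_mem f (mem_univ 0)
  obtain ⟨s, hsdef⟩ : ∃ s, s = I.erase (f 0) := ⟨_, rfl⟩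
  have hs : s.card = I.card - 1 := by
    rw [hsdef]
    exact card_erase_of_mem h0
  have hsN : s.card ≤ N := by
    have := card_le_univ s
    rwa [Fintype.card_fin] at this
  have hB : ∀ w : Fin (k + 1) → Z,
      (univ.filter fun F : Fin N → G => ∀ v, ρ (w v) = F (f v) - F (f 0)).card ≤
        (Fintype.card G) ^ (N - s.card) := by
    intro w
    have h1 : Fintype.card ({i : Fin N // i ∉ s} → G) = (Fintype.card G) ^ (N - s.card) := by
      rw [Fintype.card_fun, Fintype.card_subtype_compl, Fintype.card_fin, Fintype.card_coe]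
    rw [← h1, ← card_univ]
    refine card_le_card_of_injOn (fun F i => F i.1) (fun _ _ => mem_univ _) ?_
    intro F hF F' hF' he
    rw [mem_coe, mem_filter] at hF hF'
    have key : ∀ i, i ∉ s → F i = F' i := fun i hi => congrFun he ⟨i, hi⟩
    have h0' : F (f 0) = F' (f 0) := key _ (by rw [hsdef]; exact notMem_erase _ _)
    funext i
    by_cases hi : i ∈ s
    · rw [hsdef, hI] at hi
      obtain ⟨v, -, rfl⟩ := mem_image.1 (mem_of_mem_erase hi)
      have a1 := hF.2 v
      have a2 := hF'.2 v
      rw [a1, h0'] at a2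
      exact sub_left_inj.1 a2
    · exact key i hi
  have hsub : (univ.filter fun F : Fin N → G => bad F) ⊆ W.biUnion fun w =>
      univ.filter fun F : Fin N → G => ∀ v, ρ (w v) = F (f v) - F (f 0) := by
    intro F hF
    rw [mem_filter] at hF
    obtain ⟨w, hw, hv⟩ := h F hF.2
    rw [mem_biUnion]
    exact ⟨w, hw, by rw [mem_filter]; exact ⟨mem_univ _, hv⟩⟩
  have hcard : (univ.filter fun F : Fin N → G => bad F).card ≤
      W.card * (Fintype.card G) ^ (N - s.card) :=
    (card_le_card hsub).trans (card_biUnion_le_card_mul W _ _ fun w _ => hB w)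
  calc (univ.filter fun F : Fin N → G => bad F).card * (Fintype.card G) ^ (I.card - 1)
      ≤ (W.card * (Fintype.card G) ^ (N - s.card)) * (Fintype.card G) ^ (I.card - 1) :=
        Nat.mul_le_mul_right _ hcard
    _ = W.card * (Fintype.card G) ^ N := by
        rw [mul_assoc, ← pow_add, ← hs, Nat.sub_add_cancel hsN]

end Pool.Agent.Lib.VC
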