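import Mathlib

/-!
Row Sf (90 lines): sum over all maps from the vertices to the indices of the centres.

PROOF. For `f : Fin (k+1) → Fin N` let `s_f v` be the least `u` with `f u = f v`. The number `m` of
values of `f` is the number of fixed points of `s_f` (= number of values of `s_f`), and `f` is determined
by `s_f` and by its values at the fixed points of `s_f`. So for each `s : Fin (k+1) → Fin (k+1)` with `m`
values at most `N^m` maps `f` have `s_f = s`, and these have `|image f| = m`. If `f` is not constant then
`m ≥ 2`, and `N^m x^(m-1) = N (N x)^(m-1) ≤ N (N x)`. There are `(k+1)^(k+1)` maps `s`.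
-/

set_option autoImplicit false

namespace Pool.Agent.Lib.VC

open Finset Classical

theorem sum_pow_le {k N : ℕ} {x : ℝ} (hx : 0 ≤ x) (hNx : N * x ≤ 1) :
    ∑ f ∈ (univ.filter fun f : Fin (k + 1) → Fin N => ∃ v, f v ≠ f 0),
      x ^ ((univ.image f).card - 1) ≤ ((k : ℝ) + 1) ^ (k + 1) * N * (N * x) := by
  classical
  have hN0 : (0 : ℝ) ≤ N := Nat.cast_nonneg N
  have hNx0 : 0 ≤ (N : ℝ) * x := mul_nonneg hN0 hx
  let S : (Fin (k + 1) → Fin N) → (Fin (k + 1) → Fin (k + 1)) := fun f v => Function.invFun f (f v)
  have hS1 : ∀ f : Fin (k + 1) → Fin N, ∀ v, f (S f v) = f v := fun f v =>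
    Function.invFun_eq ⟨v, rfl⟩
  have hS2 : ∀ f : Fin (k + 1) → Fin N, (univ.image (S f)).card = (univ.image f).card := by
    intro f
    have h1 : univ.image (S f) = (univ.image f).image (Function.invFun f) := by
      rw [image_image]
      rfl
    rw [h1]
    refine card_image_of_injOn ?_
    intro a ha b hb hab
    simp only [coe_image, coe_univ, Set.image_univ, Set.mem_range] at ha hb
    obtain ⟨u, rfl⟩ := ha
    obtain ⟨v, rfl⟩ := hb
    have h2 := hS1 f u
    have h3 := hS1 f v
    have h4 : S f u = S f v := hab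
    rw [← h2, ← h3, h4]
  rw [← sum_fiberwise (univ.filter fun f : Fin (k + 1) → Fin N => ∃ v, f v ≠ f 0) S]
  have hone : ∀ t : Fin (k + 1) → Fin (k + 1),
      ∑ f ∈ (univ.filter fun f : Fin (k + 1) → Fin N => ∃ v, f v ≠ f 0) with S f = t,
        x ^ ((univ.image f).card - 1) ≤ N * (N * x) := by
    intro t
    set A := (univ.filter fun f : Fin (k + 1) → Fin N => ∃ v, f v ≠ f 0).filter (fun f => S f = t)
      with hA
    rcases A.eq_empty_or_nonempty with h0 | ⟨f0, hf0⟩
    · rw [h0, sum_empty]
      exact mul_nonneg hN0 hNx0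
    · have hm : ∀ f ∈ A, (univ.image f).card = (univ.image t).card := by
        intro f hf
        rw [hA, mem_filter] at hf
        rw [← hf.2, hS2]
      have hm2 : 2 ≤ (univ.image t).card := by
        rw [← hm f0 hf0]
        rw [hA, mem_filter, mem_filter] at hf0
        obtain ⟨⟨-, v, hv⟩, -⟩ := hf0
        have h1 : 1 < (univ.image f0).card := one_lt_card.2
          ⟨f0 v, mem_image_of_mem _ (mem_univ _), f0 0, mem_image_of_mem _ (mem_univ _), hv⟩
        exact h1
      have hcard : A.card ≤ N ^ (univ.image t).card := by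
        have h1 : A.card ≤ (univ : Finset ({y // y ∈ univ.image t} → Fin N)).card := by
          refine card_le_card_of_injOn (fun f y => f y.1) (fun _ _ => mem_univ _) ?_
          intro f hf g hg hfg
          rw [hA] at hf hg
          rw [mem_coe, mem_filter] at hf hg
          funext v
          have h2 := congrFun hfg ⟨t v, mem_image_of_mem _ (mem_univ v)⟩
          have h3 : f (t v) = g (t v) := h2
          have h4 := hS1 f v
          have h5 := hS1 g v
          rw [hf.2] at h4
          rw [hg.2] at h5
          rw [← h4, ← h5, h3]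
        refine h1.trans (le_of_eq ?_)
        rw [card_univ, Fintype.card_fun, Fintype.card_fin, Fintype.card_coe]
      rw [sum_congr rfl fun f hf => by rw [hm f hf], sum_const, nsmul_eq_mul]
      obtain ⟨j, hj⟩ := Nat.exists_eq_add_of_le hm2
      rw [hj] at hcard ⊢
      have h6 : (A.card : ℝ) ≤ (N : ℝ) ^ (2 + j) := by exact_mod_cast hcard
      have h7 : 2 + j - 1 = j + 1 := by omega
      rw [h7]
      calc (A.card : ℝ) * x ^ (j + 1) ≤ (N : ℝ) ^ (2 + j) * x ^ (j + 1) :=
            mul_le_mul_of_nonneg_right h6 (pow_nonneg hx _)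
        _ = (N * (N * x)) * (N * x) ^ j := by ring
        _ ≤ (N * (N * x)) * 1 := mul_le_mul_of_nonneg_left (pow_le_one₀ hNx0 hNx)
            (mul_nonneg hN0 hNx0)
        _ = N * (N * x) := mul_one _
  refine (sum_le_sum fun t _ => hone t).trans (le_of_eq ?_)
  rw [sum_const, nsmul_eq_mul, card_univ, Fintype.card_fun, Fintype.card_fin]
  push_cast
  ring

end Pool.Agent.Lib.VC
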