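import Pool.Agent.Lib.VC.Ls
import Pool.Agent.Lib.VC.Cb
import Pool.Agent.Lib.VC.Sf

/-!
Row Bs (120 lines): the number of bad pairs.

PROOF. `g = m^n = |Fin n → ZMod m|`, `K = k + 1`. For a non-constant `f` let `W_f` be the set of all `w`
with `Adm E f w`; it is finite: `‖toE (w v)‖² = ‖toE (w v) - toE (w 0)‖² ≤ K spread w ≤ K k E`, so take the
filter of `Fintype.piFinset (fun _ => zball n S' S')` with `S'² ≥ K k E`. `card_adm_le` and `hU`:
`|W_f| ≤ U^(m_f - 1)`, `m_f = |image f|`. `card_bad_le`: `#{F | Bad E F f} ≤ g^N (U / g)^(m_f - 1)`. With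
`x = U / g`, `N x ≤ 1` by `hN`, `sum_pow_le`: the sum is at most `g^N K^K N (N x) ≤ g^N N / 4`.
-/

set_option autoImplicit false

namespace Pool.Agent.Lib.VC

open Finset Classical Pool.Agent.Lib.MP_3884c4_co

theorem norm_sq_le_of_adm {k n N : ℕ} {E : ℝ} (hE : 0 ≤ E) {f : Fin (k + 1) → Fin N}
    {w : Fin (k + 1) → (Fin n → ℤ)} (h : Adm E f w) (v : Fin (k + 1)) :
    ‖toE (w v)‖ ^ 2 ≤ 2 * ((k : ℝ) + 1) * ((k : ℝ) + 1) * E := by
  obtain ⟨h0, -, h2⟩ := h
  have hk0 : (0 : ℝ) < (k : ℝ) + 1 := by positivity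
  have h3 : ‖toE (w v) - toE (w 0)‖ ^ 2 ≤ ∑ u, ∑ v', ‖toE (w u) - toE (w v')‖ ^ 2 := by
    calc ‖toE (w v) - toE (w 0)‖ ^ 2 ≤ ∑ v', ‖toE (w v) - toE (w v')‖ ^ 2 :=
          Finset.single_le_sum (f := fun v' => ‖toE (w v) - toE (w v')‖ ^ 2)
            (fun i _ => sq_nonneg _) (Finset.mem_univ (0 : Fin (k + 1)))
      _ ≤ ∑ u, ∑ v', ‖toE (w u) - toE (w v')‖ ^ 2 :=
          Finset.single_le_sum (f := fun u => ∑ v', ‖toE (w u) - toE (w v')‖ ^ 2)
            (fun i _ => Finset.sum_nonneg fun j _ => sq_nonneg _) (Finset.mem_univ v)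
  have h4 : toE (w 0) = 0 := by
    rw [h0]
    ext i
    simp
  rw [h4, sub_zero] at h3
  have h5 : (∑ u, ∑ v', ‖toE (w u) - toE (w v')‖ ^ 2) = 2 * ((k : ℝ) + 1) * spread w := by
    unfold spread
    field_simp
  have h6 : ((univ.image f).card : ℝ) - 1 ≤ (k : ℝ) + 1 := by
    have h7 : (univ.image f).card ≤ k + 1 := by
      refine le_trans Finset.card_image_le ?_
      simp
    have h8 : ((univ.image f).card : ℝ) ≤ (k : ℝ) + 1 := by exact_mod_cast h7
    linarith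
  have h9 : spread w ≤ ((k : ℝ) + 1) * E := h2.trans (mul_le_mul_of_nonneg_right h6 hE)
  calc ‖toE (w v)‖ ^ 2 ≤ 2 * ((k : ℝ) + 1) * spread w := by rw [← h5]; exact h3
    _ ≤ 2 * ((k : ℝ) + 1) * (((k : ℝ) + 1) * E) := by
        apply mul_le_mul_of_nonneg_left h9
        positivity
    _ = 2 * ((k : ℝ) + 1) * ((k : ℝ) + 1) * E := by ring

theorem sum_bad_le {k n m N : ℕ} [NeZero m] (hk : 1 ≤ k) {E s U : ℝ} (hs : 0 < s) (hE : 0 ≤ E)
    (hU : Real.exp (s * E) * ((1 + √(s * ((k : ℝ) + 1) / Real.pi)) * √(Real.pi / s)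
      * ((k : ℝ) + 1) ^ (1 / (2 * (k : ℝ)))) ^ n ≤ U)
    (hN : 4 * ((k : ℝ) + 1) ^ (k + 1) * N * U ≤ ((Fintype.card (Fin n → ZMod m) : ℕ) : ℝ)) :
    4 * ∑ f ∈ (univ.filter fun f : Fin (k + 1) → Fin N => ∃ v, f v ≠ f 0),
      (univ.filter fun F : Fin N → (Fin n → ZMod m) => Bad E F f).card
      ≤ N * (Fintype.card (Fin n → ZMod m)) ^ N := by
  have hK0 : (0 : ℝ) < (k : ℝ) + 1 := by positivity
  set g : ℕ := Fintype.card (Fin n → ZMod m) with hg
  have hg0 : 0 < g := Fintype.card_pos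
  have hgR : (0 : ℝ) < (g : ℝ) := by exact_mod_cast hg0
  have hU0 : 0 ≤ U := le_trans (by positivity) hU
  set x : ℝ := U / g with hx
  have hx0 : 0 ≤ x := div_nonneg hU0 hgR.le
  have hKK : (1 : ℝ) ≤ ((k : ℝ) + 1) ^ (k + 1) := by
    apply one_le_pow₀
    have : (0 : ℝ) ≤ k := by positivity
    linarith
  have hN0 : (0 : ℝ) ≤ (N : ℝ) := by positivity
  have hNx4 : 4 * ((k : ℝ) + 1) ^ (k + 1) * (N * x) ≤ 1 := by
    rw [hx, mul_div_assoc', mul_div_assoc', div_le_one hgR]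
    calc 4 * ((k : ℝ) + 1) ^ (k + 1) * (N * U) = 4 * ((k : ℝ) + 1) ^ (k + 1) * N * U := by ring
      _ ≤ g := hN
  have hNx0 : 0 ≤ N * x := mul_nonneg hN0 hx0
  have hNx : N * x ≤ 1 := by
    refine le_trans ?_ hNx4
    have h1 : (1 : ℝ) ≤ 4 * ((k : ℝ) + 1) ^ (k + 1) := by linarith
    exact le_mul_of_one_le_left hNx0 h1
  -- the bound for one map
  have hone : ∀ f : Fin (k + 1) → Fin N, (∃ v, f v ≠ f 0) →
      (((univ.filter fun F : Fin N → (Fin n → ZMod m) => Bad E F f).card : ℕ) : ℝ)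
        ≤ (g : ℝ) ^ N * x ^ ((univ.image f).card - 1) := by
    intro f _
    set S : ℕ := ⌈2 * ((k : ℝ) + 1) * ((k : ℝ) + 1) * E⌉₊ + 1 with hS
    set W : Finset (Fin (k + 1) → (Fin n → ℤ)) :=
      (Fintype.piFinset (fun _ : Fin (k + 1) => zball n S S)).filter (fun w => Adm E f w) with hW
    have hWm : ∀ w, Adm E f w → w ∈ W := by
      intro w hw
      rw [hW, Finset.mem_filter]
      refine ⟨?_, hw⟩
      rw [Fintype.mem_piFinset]
      intro v
      rw [mem_zball le_rfl]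
      have h1 := norm_sq_le_of_adm hE hw v
      have h2 : 2 * ((k : ℝ) + 1) * ((k : ℝ) + 1) * E ≤ (S : ℝ) := by
        refine (Nat.le_ceil _).trans ?_
        rw [hS]
        exact_mod_cast Nat.le_succ _
      have h3 : (1 : ℝ) ≤ (S : ℝ) := by
        rw [hS]
        exact_mod_cast Nat.succ_le_succ (Nat.zero_le _)
      have h4 : ‖toE (w v)‖ ^ 2 ≤ (S : ℝ) ^ 2 := by
        calc ‖toE (w v)‖ ^ 2 ≤ (S : ℝ) := h1.trans h2
          _ ≤ (S : ℝ) ^ 2 := by nlinarith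
      exact (sq_le_sq₀ (norm_nonneg _) (by positivity)).1 h4
    have h1 := card_adm_le hk hs f W (fun w hw => (Finset.mem_filter.1 hw).2)
    have h2 : (W.card : ℝ) ≤ U ^ ((univ.image f).card - 1) := by
      refine h1.trans ?_
      apply pow_le_pow_left₀ (by positivity) hU
    have h3 := card_bad_le (G := Fin n → ZMod m) f W (red m)
      (fun F => Bad E F f) (by
        intro F hF
        obtain ⟨w, hw, hw2⟩ := hF
        exact ⟨w, hWm w hw, hw2⟩)
    have h4 : (((univ.filter fun F : Fin N → (Fin n → ZMod m) => Bad E F f).card : ℕ) : ℝ)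
        * (g : ℝ) ^ ((univ.image f).card - 1) ≤ (W.card : ℝ) * (g : ℝ) ^ N := by
      exact_mod_cast h3
    have hgp : (0 : ℝ) < (g : ℝ) ^ ((univ.image f).card - 1) := by positivity
    have h5 : (((univ.filter fun F : Fin N → (Fin n → ZMod m) => Bad E F f).card : ℕ) : ℝ)
        * (g : ℝ) ^ ((univ.image f).card - 1)
        ≤ (g : ℝ) ^ N * x ^ ((univ.image f).card - 1) * (g : ℝ) ^ ((univ.image f).card - 1) := by
      have h6 : (g : ℝ) ^ N * x ^ ((univ.image f).card - 1) * (g : ℝ) ^ ((univ.image f).card - 1)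
          = U ^ ((univ.image f).card - 1) * (g : ℝ) ^ N := by
        rw [hx, div_pow]
        field_simp
      rw [h6]
      exact h4.trans (mul_le_mul_of_nonneg_right h2 (by positivity))
    exact le_of_mul_le_mul_right h5 hgp
  have hsum := sum_pow_le (k := k) (N := N) hx0 hNx
  have hfin : (4 : ℝ) * ∑ f ∈ (univ.filter fun f : Fin (k + 1) → Fin N => ∃ v, f v ≠ f 0),
      (((univ.filter fun F : Fin N → (Fin n → ZMod m) => Bad E F f).card : ℕ) : ℝ)
      ≤ N * (g : ℝ) ^ N := by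
    have h1 : ∑ f ∈ (univ.filter fun f : Fin (k + 1) → Fin N => ∃ v, f v ≠ f 0),
        (((univ.filter fun F : Fin N → (Fin n → ZMod m) => Bad E F f).card : ℕ) : ℝ)
        ≤ (g : ℝ) ^ N * (((k : ℝ) + 1) ^ (k + 1) * N * (N * x)) := by
      calc ∑ f ∈ (univ.filter fun f : Fin (k + 1) → Fin N => ∃ v, f v ≠ f 0),
          (((univ.filter fun F : Fin N → (Fin n → ZMod m) => Bad E F f).card : ℕ) : ℝ)
          ≤ ∑ f ∈ (univ.filter fun f : Fin (k + 1) → Fin N => ∃ v, f v ≠ f 0),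
            (g : ℝ) ^ N * x ^ ((univ.image f).card - 1) := by
            apply Finset.sum_le_sum
            intro f hf
            exact hone f (Finset.mem_filter.1 hf).2
        _ = (g : ℝ) ^ N * ∑ f ∈ (univ.filter fun f : Fin (k + 1) → Fin N => ∃ v, f v ≠ f 0),
            x ^ ((univ.image f).card - 1) := by rw [Finset.mul_sum]
        _ ≤ (g : ℝ) ^ N * (((k : ℝ) + 1) ^ (k + 1) * N * (N * x)) :=
            mul_le_mul_of_nonneg_left hsum (by positivity)
    calc (4 : ℝ) * ∑ f ∈ (univ.filter fun f : Fin (k + 1) → Fin N => ∃ v, f v ≠ f 0),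
        (((univ.filter fun F : Fin N → (Fin n → ZMod m) => Bad E F f).card : ℕ) : ℝ)
        ≤ 4 * ((g : ℝ) ^ N * (((k : ℝ) + 1) ^ (k + 1) * N * (N * x))) :=
          mul_le_mul_of_nonneg_left h1 (by norm_num)
      _ = (N * (g : ℝ) ^ N) * (4 * ((k : ℝ) + 1) ^ (k + 1) * (N * x)) := by ring
      _ ≤ (N * (g : ℝ) ^ N) * 1 := mul_le_mul_of_nonneg_left hNx4 (by positivity)
      _ = N * (g : ℝ) ^ N := by ring
  exact_mod_cast hfin

end Pool.Agent.Lib.VC
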