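import Mathlib

/-!
Row Cc (50 lines): concavity of the logarithm.

PROOF. For `1 ≤ x ≤ k + 1`: `log x ≥ ((x - 1) / k) log (k + 1)` (concavity, `log 1 = 0`). Each `c b` is at
most `k + 1`. Sum over `T`: `∑ log (c b) ≥ ((k + 1 - |T|) / k) log (k + 1)`. Hence
`(k + 1) / ∏ c ≤ (k + 1)^((|T| - 1) / k)`; take the square root.
-/

set_option autoImplicit false

namespace Pool.Agent.Lib.VC

open Finset

theorem prod_bound {B : Type} {k : ℕ} (hk : 1 ≤ k) (T : Finset B) (c : B → ℕ)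
    (hc : ∀ b ∈ T, 1 ≤ c b) (hsum : ∑ b ∈ T, c b = k + 1) :
    √(((k : ℝ) + 1) / ∏ b ∈ T, (c b : ℝ))
      ≤ (((k : ℝ) + 1) ^ (1 / (2 * (k : ℝ)))) ^ (T.card - 1) := by
  have hk0 : (0 : ℝ) < k := by exact_mod_cast hk
  have hk1 : (0 : ℝ) < (k : ℝ) + 1 := by linarith
  have hT : 1 ≤ T.card := by
    rw [Nat.one_le_iff_ne_zero, Finset.card_ne_zero]
    rw [Finset.nonempty_iff_ne_empty]
    intro h
    rw [h, Finset.sum_empty] at hsum
    omega
  have hle : ∀ b ∈ T, c b ≤ k + 1 := fun b hb => by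
    rw [← hsum]
    exact Finset.single_le_sum (f := c) (fun i _ => Nat.zero_le _) hb
  -- lower bound of the product
  have h1 : ∀ b ∈ T, ((k : ℝ) + 1) ^ (((c b : ℝ) - 1) / k) ≤ (c b : ℝ) := by
    intro b hb
    have h2 : (1 : ℝ) ≤ c b := by exact_mod_cast hc b hb
    have h3 : (c b : ℝ) ≤ k + 1 := by exact_mod_cast hle b hb
    have h4 := rpow_one_add_le_one_add_mul_self (s := (k : ℝ)) (by linarith)
      (p := ((c b : ℝ) - 1) / k) (div_nonneg (by linarith) hk0.le)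
      ((div_le_one hk0).2 (by linarith))
    rw [div_mul_cancel₀ _ hk0.ne', add_comm (1 : ℝ) (k : ℝ)] at h4
    linarith
  have h2 : ((k : ℝ) + 1) ^ (∑ b ∈ T, ((c b : ℝ) - 1) / k) ≤ ∏ b ∈ T, (c b : ℝ) := by
    rw [Real.rpow_sum_of_pos hk1]
    exact Finset.prod_le_prod (fun b _ => Real.rpow_nonneg hk1.le _) h1
  have h3 : ∑ b ∈ T, ((c b : ℝ) - 1) / k = ((k : ℝ) + 1 - T.card) / k := by
    rw [← Finset.sum_div, Finset.sum_sub_distrib]
    have : (∑ b ∈ T, (c b : ℝ)) = (k : ℝ) + 1 := by exact_mod_cast hsum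
    rw [this]
    simp
  rw [h3] at h2
  have hpos : (0 : ℝ) < ((k : ℝ) + 1) ^ (((k : ℝ) + 1 - T.card) / k) := Real.rpow_pos_of_pos hk1 _
  rw [Real.sqrt_le_iff]
  refine ⟨by positivity, ?_⟩
  have h5 : ((k : ℝ) + 1) / ∏ b ∈ T, (c b : ℝ) ≤
      ((k : ℝ) + 1) / ((k : ℝ) + 1) ^ (((k : ℝ) + 1 - T.card) / k) :=
    div_le_div_of_nonneg_left hk1.le hpos h2
  refine h5.trans (le_of_eq ?_)
  rw [← pow_mul, ← Real.rpow_natCast, ← Real.rpow_mul hk1.le]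
  nth_rewrite 1 [← Real.rpow_one ((k : ℝ) + 1)]
  rw [← Real.rpow_sub hk1]
  congr 1
  push_cast [Nat.cast_sub hT]
  field_simp
  ring

end Pool.Agent.Lib.VC
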