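import Pool.Agent.Lib.MP_3884c4_co.Colour

/-!
# MP_3884c4_co, Voronoi cells: definitions

Grid units: points of the space are scaled by `t = L √n`, so that the simplex has edge length `t`; the
centres of the cells and the (rounded) vertices are integer points, everything is reduced modulo `m`.
-/

set_option autoImplicit false

namespace Pool.Agent.Lib.VC

open Finset Pool.Agent.Lib.MP_3884c4_co

/-- `w` is too close to the point `z` of the cell with centre `0` and ratio `l` (if there is another
centre at `w`, then `z` is not in the cell shrunk by the factor `l`); equivalently `w = 0` or `w` is in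
the open ball with centre `z / l` and radius `‖z‖ / l` -/
def Viol {n : ℕ} (l : ℝ) (z w : Fin n → ℤ) : Prop :=
  w = 0 ∨ (l / 2) * ‖toE w‖ ^ 2 < inner ℝ (toE z) (toE w)

/-- the forbidden differences for the point `z` of a cell, in the torus -/
noncomputable def hole (n S m : ℕ) (l : ℝ) (z : Fin n → ℤ) : Finset (Fin n → ZMod m) :=
  open Classical in ((zball n S S).filter (fun w => Viol l z w)).image (red m)

/-- `∑ ‖w v - mean‖ ^ 2` -/
noncomputable def spread {k n : ℕ} (w : Fin (k + 1) → (Fin n → ℤ)) : ℝ :=
  (1 / (2 * ((k : ℝ) + 1))) * ∑ u, ∑ v, ‖toE (w u) - toE (w v)‖ ^ 2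

/-- admissible difference vectors for the map `f` (vertices to centres) -/
def Adm {k n N : ℕ} (E : ℝ) (f : Fin (k + 1) → Fin N) (w : Fin (k + 1) → (Fin n → ℤ)) : Prop :=
  w 0 = 0 ∧ (∀ u v, f u = f v → w u = w v) ∧
    spread w ≤ (((univ.image f).card : ℝ) - 1) * E

/-- the map `f` is bad for the centres `F` -/
def Bad {k n m N : ℕ} (E : ℝ) (F : Fin N → (Fin n → ZMod m)) (f : Fin (k + 1) → Fin N) : Prop :=
  ∃ w : Fin (k + 1) → (Fin n → ℤ), Adm E f w ∧ ∀ v, red m (w v) = F (f v) - F (f 0)

/-- the union of the cells with index in `J` -/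
noncomputable def cells {n m N : ℕ} [NeZero m] (S : ℕ) (r l : ℝ) (F : Fin N → (Fin n → ZMod m))
    (J : Finset (Fin N)) : Finset (Fin n → ZMod m) :=
  open Classical in univ.filter fun x => ∃ i ∈ J, ∃ z ∈ zball n S r, x - F i = red m z ∧
    ∀ j, j ≠ i → F j - F i ∉ hole n S m l z

end Pool.Agent.Lib.VC
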