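import Pool.Agent.Lib.VC.Fi

/-!
Row Ev: all dimensions, choice of the parameters.
-/

set_option autoImplicit false

namespace Pool.Agent.Lib.VC

open Finset Filter

private theorem ev_emb (n N : ℕ) (h : n ≤ N) :
    ∃ φ : EuclideanSpace ℝ (Fin n) → EuclideanSpace ℝ (Fin N), ∀ x y, dist (φ x) (φ y) = dist x y := by
  obtain ⟨d, rfl⟩ := Nat.exists_eq_add_of_le h
  refine ⟨fun x => WithLp.toLp 2 (Fin.append (fun i => x i) (fun _ : Fin d => (0 : ℝ))), ?_⟩
  intro x y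
  rw [EuclideanSpace.dist_eq, EuclideanSpace.dist_eq, Fin.sum_univ_add]
  simp

private theorem ev_poly {C a b : ℝ} (_hC : 0 ≤ C) (ha : 1 ≤ a) (hab : a < b) :
    ∀ᶠ n : ℕ in atTop, 1 + C * (n : ℝ) ^ 3 * a ^ (n + 1) ≤ b ^ n := by
  have hb0 : 0 < b := by linarith
  have hb : 1 < b := by linarith
  have ha0 : 0 ≤ a := by linarith
  have h1 : Tendsto (fun n : ℕ => (1 / b) ^ n + (C * a) * ((n : ℝ) ^ 3 * (a / b) ^ n)) atTop
      (nhds (0 + (C * a) * 0)) := by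
    apply Tendsto.add
    · apply tendsto_pow_atTop_nhds_zero_of_lt_one (by positivity)
      rw [div_lt_one hb0]
      exact hb
    · apply Tendsto.const_mul
      apply tendsto_pow_const_mul_const_pow_of_abs_lt_one
      rw [abs_of_nonneg (by positivity), div_lt_one hb0]
      exact hab
  rw [mul_zero, add_zero] at h1
  have h2 := h1.eventually (gt_mem_nhds (zero_lt_one))
  filter_upwards [h2] with n hn
  have hbn : 0 < b ^ n := by positivity
  rw [div_pow, div_pow, one_pow] at hn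
  have h3 : (1 / b ^ n + (C * a) * ((n : ℝ) ^ 3 * (a ^ n / b ^ n))) * b ^ n
      = 1 + C * (n : ℝ) ^ 3 * a ^ (n + 1) := by
    rw [pow_succ]
    field_simp
    ring
  rw [← h3]
  have := mul_le_mul_of_nonneg_right hn.le hbn.le
  linarith

/-- the choice of the parameter `L` -/
private theorem ev_L {k : ℕ} {K κ β δ l u : ℝ} (hk : 1 ≤ k) (hδ : 0 < δ) (hK : K = (k : ℝ) + 1)
    (hκ : 1 ≤ κ) (hβ : β = 1 + √(K / k) * κ) (hl : l = 1 / (β + δ / 2))
    (hu : u = κ / (√2 * (1 - l))) (hl0 : 0 < l) (hl1 : l < 1) :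
    ∃ L : ℕ, 2 * K * (l * u * L + 1) ^ 2 < k * (L : ℝ) ^ 2 ∧ 1 < l * u * L ∧
      0 ≤ (u * (L + 2 * √(2 * K)) + 1) / (l * u * L - 1) ∧
      (u * (L + 2 * √(2 * K)) + 1) / (l * u * L - 1) ≤ β + 3 * δ / 4 := by
  have hk0 : (0 : ℝ) < k := by exact_mod_cast hk
  have hK0 : 0 < K := by rw [hK]; positivity
  have hκ0 : 0 < κ := by linarith
  have hKk : 0 < √(K / k) := Real.sqrt_pos.2 (by positivity)
  have hKk2 : √(K / k) ^ 2 = K / k := Real.sq_sqrt (by positivity)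
  have hβ0 : 1 < β := by
    rw [hβ]
    have : 0 < √(K / k) * κ := by positivity
    linarith
  have hb2 : 0 < β + δ / 2 := by linarith
  have h1l : 0 < 1 - l := by linarith
  have hs2 : 0 < √(2 : ℝ) := Real.sqrt_pos.2 (by norm_num)
  have hs22 : √(2 : ℝ) ^ 2 = 2 := Real.sq_sqrt (by norm_num)
  have hu0 : 0 < u := by rw [hu]; positivity
  have hlu0 : 0 < l * u := by positivity
  -- `l u = κ / (√2 (β - 1 + δ / 2))`
  have hlu : l * u = κ / (√2 * (√(K / k) * κ + δ / 2)) := by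
    have h1 : 1 - l = (√(K / k) * κ + δ / 2) * l := by
      rw [hl, hβ]
      have : (1 + √(K / k) * κ + δ / 2) ≠ 0 := by rw [hβ] at hb2; exact hb2.ne'
      field_simp
      ring
    have h2 : (0 : ℝ) < √(K / k) * κ + δ / 2 := by positivity
    rw [hu, h1]
    field_simp
  -- `c'`
  set c' : ℝ := 1 / (√2 * √(K / k)) with hc'
  have hc0 : 0 < c' := by positivity
  have hc'2 : 2 * K * c' ^ 2 = k := by
    rw [hc', div_pow, mul_pow, hs22, hKk2]
    field_simp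
  have hcc : l * u < c' := by
    rw [hlu, hc', div_lt_div_iff₀ (by positivity) (by positivity)]
    have : 0 < √2 * (δ / 2) := by positivity
    nlinarith
  -- the limit
  set A : ℝ := β + 3 * δ / 4 with hA
  have hA0 : 0 < A := by rw [hA]; linarith
  have hAl : 0 < A * (l * u) - u := by
    have h1 : 1 < A * l := by
      rw [hl, hA, mul_one_div, lt_div_iff₀ hb2]
      linarith
    nlinarith
  obtain ⟨L, hL⟩ := exists_nat_gt (max (1 / (c' - l * u)) (max (1 / (l * u))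
    ((2 * u * √(2 * K) + 1 + A) / (A * (l * u) - u))))
  have hL1 : 1 / (c' - l * u) < L := lt_of_le_of_lt (le_max_left _ _) hL
  have hL2 : 1 / (l * u) < L :=
    lt_of_le_of_lt ((le_max_left _ _).trans (le_max_right _ _)) hL
  have hL3 : (2 * u * √(2 * K) + 1 + A) / (A * (l * u) - u) < L :=
    lt_of_le_of_lt ((le_max_right _ _).trans (le_max_right _ _)) hL
  have hcl : 0 < c' - l * u := by linarith
  rw [div_lt_iff₀ hcl] at hL1
  rw [div_lt_iff₀ hlu0] at hL2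
  rw [div_lt_iff₀ hAl] at hL3
  have hL0 : (0 : ℝ) ≤ L := Nat.cast_nonneg L
  have hden : 0 < l * u * L - 1 := by linarith
  have hsq : 0 ≤ √(2 * K) := Real.sqrt_nonneg _
  refine ⟨L, ?_, by linarith, by positivity, ?_⟩
  · have h1 : l * u * L + 1 < c' * L := by nlinarith
    have h2 : (l * u * L + 1) ^ 2 < (c' * L) ^ 2 := by
      apply pow_lt_pow_left₀ h1 (by positivity) (by norm_num)
    calc 2 * K * (l * u * L + 1) ^ 2 < 2 * K * (c' * L) ^ 2 := by
          apply mul_lt_mul_of_pos_left h2 (by positivity)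
      _ = (2 * K * c' ^ 2) * (L : ℝ) ^ 2 := by ring
      _ = k * (L : ℝ) ^ 2 := by rw [hc'2]
  · rw [div_le_iff₀ hden]
    nlinarith

theorem main {k : ℕ} (hk : 1 ≤ k) {δ : ℝ} (hδ : 0 < δ) :
    ∀ᶠ n : ℕ in atTop, ∃ m : ℕ,
      (m : ℝ) ≤ (1 + √(((k : ℝ) + 1) / k) * ((k : ℝ) + 1) ^ (1 / (2 * (k : ℝ))) + δ) ^ n ∧
      ∃ c : EuclideanSpace ℝ (Fin n) → Fin m,
        ∀ x : Fin (k + 1) → EuclideanSpace ℝ (Fin n),
          (∀ i j, i ≠ j → dist (x i) (x j) = 1) → ¬ (∀ i j, c (x i) = c (x j)) := by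
  have hk0 : (0 : ℝ) < k := by exact_mod_cast hk
  set K : ℝ := (k : ℝ) + 1 with hK
  set κ : ℝ := K ^ (1 / (2 * (k : ℝ))) with hκ
  set β : ℝ := 1 + √(K / k) * κ with hβ
  have hκ1 : 1 ≤ κ := by
    rw [hκ]
    apply Real.one_le_rpow
    · rw [hK]; linarith
    · positivity
  have hβ1 : 1 < β := by
    have h1 : 0 < √(K / k) := Real.sqrt_pos.2 (by positivity)
    have h2 : 0 < √(K / k) * κ := by positivity
    rw [hβ]
    linarith
  have hb2 : 1 < β + δ / 2 := by linarith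
  set l : ℝ := 1 / (β + δ / 2) with hl
  have hl0 : 0 < l := by positivity
  have hl1 : l < 1 := by
    rw [hl, div_lt_one (by linarith)]
    exact hb2
  set u : ℝ := κ / (√2 * (1 - l)) with hu
  obtain ⟨L, hL1, hL2, ha0, haA⟩ := ev_L hk hδ hK hκ1 hβ hl hu hl0 hl1
  obtain ⟨C, hC, hcol⟩ := colouring_even (k := k) (L := L) hk hl0 hl1 hu hL1 hL2
  set A : ℝ := β + 3 * δ / 4 with hA
  have hA1 : 1 ≤ A := by rw [hA]; linarith
  have hAb : A < β + δ := by rw [hA]; linarith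
  filter_upwards [ev_poly hC hA1 hAb, eventually_ge_atTop 1] with n hn hn1
  obtain ⟨h, hh1, hh2, hh3, hh4⟩ : ∃ h : ℕ, 1 ≤ h ∧ n ≤ 2 * h ∧ 2 * h ≤ n + 1 ∧ h ≤ n :=
    ⟨(n + 1) / 2, by omega, by omega, by omega, by omega⟩
  obtain ⟨j, hj, c, hc⟩ := hcol h hh1
  obtain ⟨φ, hφ⟩ := ev_emb n (2 * h) hh2
  refine ⟨j, ?_, fun x => c (φ x), ?_⟩
  · refine hj.trans (le_trans ?_ hn)
    have h1 : ((u * (L + 2 * √(2 * K)) + 1) / (l * u * L - 1)) ^ (2 * h) ≤ A ^ (n + 1) :=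
      (pow_le_pow_left₀ ha0 haA _).trans (pow_le_pow_right₀ hA1 hh3)
    have h2 : (h : ℝ) ^ 3 ≤ (n : ℝ) ^ 3 := by
      apply pow_le_pow_left₀ (Nat.cast_nonneg _)
      exact_mod_cast hh4
    have h3 : C * (h : ℝ) ^ 3 ≤ C * (n : ℝ) ^ 3 := mul_le_mul_of_nonneg_left h2 hC
    have h4 : 0 ≤ A ^ (n + 1) := by positivity
    have h5 : 0 ≤ C * (h : ℝ) ^ 3 := by positivity
    have h6 : C * (h : ℝ) ^ 3 * ((u * (L + 2 * √(2 * K)) + 1) / (l * u * L - 1)) ^ (2 * h)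
        ≤ C * (n : ℝ) ^ 3 * A ^ (n + 1) :=
      (mul_le_mul_of_nonneg_left h1 h5).trans (mul_le_mul_of_nonneg_right h3 h4)
    linarith
  · intro x hx hmono
    refine hc (fun i => φ (x i)) ?_ hmono
    intro i i' hii
    rw [hφ]
    exact hx i i' hii

end Pool.Agent.Lib.VC
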