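import Pool.Agent.Lib.MP_3884c4_co.Vol

/-!
Row Vo (70 lines): integer points of balls with arbitrary centre; copy of `vol_upper` and `ratio` in
`Lib/MP_3884c4_co/Vol.lean` (there the centre of the large ball is `0`).
-/

set_option autoImplicit false

namespace Pool.Agent.Lib.VC

open Finset MeasureTheory Pool.Agent.Lib.MP_3884c4_co

private theorem vo_upper {n : ℕ} {R : ℝ} (hR : 0 ≤ R) (c : EuclideanSpace ℝ (Fin n)) (T : Finset (Fin n → ℤ))
    (hT : ∀ w ∈ T, ‖toE w - c‖ ≤ R) :
    ((T.card : ℕ) : ENNReal) * volume (cell (0 : Fin n → ℤ))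
      ≤ ENNReal.ofReal ((R + √n) ^ n) * volume (Metric.ball (0 : EuclideanSpace ℝ (Fin n)) 1) := by
  rw [← volume_union]
  have h1 : (⋃ z ∈ T, cell z) ⊆ Metric.closedBall c (R + √n) := by
    intro y hy
    rw [Set.mem_iUnion₂] at hy
    obtain ⟨z, hz, hyz⟩ := hy
    rw [Metric.mem_closedBall, dist_eq_norm]
    have h2 := norm_sub_fl y
    have h3 : fl y = z := hyz
    rw [h3] at h2
    calc ‖y - c‖ = ‖(y - toE z) + (toE z - c)‖ := by rw [sub_add_sub_cancel]
      _ ≤ ‖y - toE z‖ + ‖toE z - c‖ := norm_add_le _ _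
      _ ≤ R + √n := by linarith [hT z hz]
  refine (measure_mono h1).trans (le_of_eq ?_)
  rw [Measure.addHaar_closedBall _ _ (by positivity), finrank_euclideanSpace_fin]

theorem card_ball_le {n S : ℕ} {r R : ℝ} (hr : √n ≤ r) (hrS : r ≤ S) (hR : 0 ≤ R)
    (c : EuclideanSpace ℝ (Fin n)) (T : Finset (Fin n → ℤ)) (hT : ∀ w ∈ T, ‖toE w - c‖ ≤ R) :
    (T.card : ℝ) * (r - √n) ^ n ≤ (zball n S r).card * (R + √n) ^ n := by
  set v := volume (Metric.ball (0 : EuclideanSpace ℝ (Fin n)) 1) with hv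
  set e := volume (cell (0 : Fin n → ℤ)) with he
  have hv0 : v ≠ 0 := (Metric.measure_ball_pos volume 0 one_pos).ne'
  have hvt : v ≠ ⊤ := measure_ball_lt_top.ne
  have het : e ≠ ⊤ := by
    have h1 := vol_upper (n := n) (S := 0) (r := 0) le_rfl (by norm_num)
    have h2 : (0 : Fin n → ℤ) ∈ zball n 0 0 := by
      rw [mem_zball (by norm_num)]
      have : toE (0 : Fin n → ℤ) = 0 := by
        ext i
        simp
      rw [this, norm_zero]
    intro h
    rw [← he, ← hv, h, ENNReal.mul_top] at h1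
    · rw [top_le_iff] at h1
      exact (ENNReal.mul_ne_top ENNReal.ofReal_ne_top hvt) h1
    · exact_mod_cast (Finset.card_pos.2 ⟨_, h2⟩).ne'
  have he0 : e ≠ 0 := by
    obtain ⟨K, hK⟩ := exists_nat_ge (√n + 1)
    have h1 := vol_lower (n := n) (S := K) (r := √n + 1) (by linarith) hK
    intro h
    rw [← he, ← hv, h, mul_zero, add_sub_cancel_left, one_pow, ENNReal.ofReal_one, one_mul] at h1
    exact hv0 (le_antisymm h1 zero_le)
  have her : 0 < e.toReal := ENNReal.toReal_pos he0 het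
  have hvr : 0 < v.toReal := ENNReal.toReal_pos hv0 hvt
  have h1 : (((T.card : ℕ) : ENNReal) * e).toReal ≤ (ENNReal.ofReal ((R + √n) ^ n) * v).toReal :=
    ENNReal.toReal_mono (ENNReal.mul_ne_top ENNReal.ofReal_ne_top hvt) (vo_upper hR c T hT)
  have h2 : (ENNReal.ofReal ((r - √n) ^ n) * v).toReal
      ≤ (((zball n S r).card : ENNReal) * e).toReal :=
    ENNReal.toReal_mono (ENNReal.mul_ne_top (ENNReal.natCast_ne_top _) het)
      (vol_lower (n := n) (S := S) hr hrS)
  rw [ENNReal.toReal_mul, ENNReal.toReal_mul, ENNReal.toReal_natCast,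
    ENNReal.toReal_ofReal (by positivity)] at h1
  rw [ENNReal.toReal_mul, ENNReal.toReal_mul, ENNReal.toReal_natCast,
    ENNReal.toReal_ofReal (pow_nonneg (by linarith) _)] at h2
  set a := ((T.card : ℕ) : ℝ) with ha
  set b := ((zball n S r).card : ℝ) with hb
  set p := (r - √n) ^ n with hp
  set q := (R + √n) ^ n with hq
  have hp0 : 0 ≤ p := pow_nonneg (by linarith) _
  have hq0 : 0 ≤ q := by positivity
  have h3 : (e.toReal * v.toReal) * (a * p) ≤ (e.toReal * v.toReal) * (b * q) := by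
    have e1 := mul_le_mul_of_nonneg_right h1 (mul_nonneg hp0 hvr.le)
    have e2 := mul_le_mul_of_nonneg_left h2 (mul_nonneg hq0 hvr.le)
    calc (e.toReal * v.toReal) * (a * p) = a * e.toReal * (p * v.toReal) := by ring
      _ ≤ q * v.toReal * (p * v.toReal) := e1
      _ ≤ q * v.toReal * (b * e.toReal) := e2
      _ = (e.toReal * v.toReal) * (b * q) := by ring
  exact le_of_mul_le_mul_left h3 (mul_pos her hvr)

end Pool.Agent.Lib.VC
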