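import Pool.Agent.Lib.VC.Defs
import Pool.Agent.Lib.VC.Vo

/-!
Row Ho (80 lines): the forbidden differences.

PROOF. (1) Every `w` with `Viol l z w` has `‖toE w - (1/l) • toE z‖ ≤ ‖toE z‖ / l ≤ r / l` (for `w = 0`
trivial, else expand the square); `card_ball_le` with `R = r / l`, and `Finset.card_image_le`.
(2) `w = z - z'`, `‖toE w‖ ≤ 2 r ≤ S`. If `w = 0` both are violated. If neither `Viol l z w` nor
`Viol l z' (-w)`: `⟪z, w⟫ ≤ (l/2)‖w‖²`, `-⟪z', w⟫ ≤ (l/2)‖w‖²`, sum: `‖w‖² ≤ l ‖w‖²`, impossible.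
-/

set_option autoImplicit false

namespace Pool.Agent.Lib.VC

open Finset Pool.Agent.Lib.MP_3884c4_co

private theorem toE_zero' {n : ℕ} : toE (0 : Fin n → ℤ) = 0 := by
  have h : toE ((0 : Fin n → ℤ) + 0) = toE (0 : Fin n → ℤ) + toE 0 := toE_add 0 0
  rw [add_zero] at h
  exact left_eq_add.1 h

private theorem viol_norm {n : ℕ} {l r : ℝ} (hl : 0 < l) (z w : Fin n → ℤ) (hz : ‖toE z‖ ≤ r)
    (h : Viol l z w) : ‖toE w - (1 / l) • toE z‖ ≤ r / l := by
  have h0 : ‖(1 / l) • toE z‖ ≤ r / l := by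
    rw [norm_smul, Real.norm_of_nonneg (by positivity)]
    calc 1 / l * ‖toE z‖ ≤ 1 / l * r := mul_le_mul_of_nonneg_left hz (by positivity)
      _ = r / l := by ring
  rcases h with h | h
  · rw [h, toE_zero', zero_sub, norm_neg]
    exact h0
  · refine le_trans ?_ h0
    apply (sq_le_sq₀ (norm_nonneg _) (norm_nonneg _)).1
    rw [norm_sub_sq_real, real_inner_smul_right, real_inner_comm]
    have h2 : ‖toE w‖ ^ 2 ≤ 2 * (1 / l * inner ℝ (toE z) (toE w)) := by
      have e : ‖toE w‖ ^ 2 = 2 * (1 / l * (l / 2 * ‖toE w‖ ^ 2)) := by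
        field_simp
      rw [e]
      exact mul_le_mul_of_nonneg_left (mul_le_mul_of_nonneg_left h.le (by positivity)) (by norm_num)
    linarith

theorem hole_card_le {n S m : ℕ} {l r : ℝ} (hl : 0 < l) (hr : √n ≤ r) (hrS : r ≤ S)
    (z : Fin n → ℤ) (hz : z ∈ zball n S r) :
    ((hole n S m l z).card : ℝ) * (r - √n) ^ n ≤ (zball n S r).card * (r / l + √n) ^ n := by
  classical
  have hr0 : 0 ≤ r := (Real.sqrt_nonneg _).trans hr
  have hz' := (mem_zball hrS z).1 hz
  have h1 := card_ball_le (n := n) (S := S) (r := r) (R := r / l) hr hrS (by positivity)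
    ((1 / l) • toE z) ((zball n S S).filter (fun w => Viol l z w)) (fun w hw =>
      viol_norm hl z w hz' (Finset.mem_filter.1 hw).2)
  refine le_trans (mul_le_mul_of_nonneg_right ?_ (pow_nonneg (by linarith) _)) h1
  unfold hole
  have h2 := Finset.card_image_le (s := (zball n S S).filter (fun w => Viol l z w)) (f := red m)
  have h3 : (((zball n S S).filter (fun w => Viol l z w)).image (red m)).card ≤
      ((zball n S S).filter (fun w => Viol l z w)).card := h2
  refine le_trans (le_of_eq ?_) (Nat.cast_le.2 h3)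
  congr 3

theorem hole_dis {n S m : ℕ} {l r : ℝ} (hl : 0 < l) (hl1 : l < 1) (hr : 0 ≤ r) (hrS : 2 * r ≤ S) :
    ∀ z ∈ zball n S r, ∀ z' ∈ zball n S r,
      red m z - red m z' ∈ hole n S m l z ∨ red m z' - red m z ∈ hole n S m l z' := by
  classical
  intro z hz z' hz'
  have h1 := (mem_zball (by linarith) z).1 hz
  have h2 := (mem_zball (by linarith) z').1 hz'
  have hmem : ∀ a b : Fin n → ℤ, ‖toE a‖ ≤ r → ‖toE b‖ ≤ r → Viol l a (a - b) →
      red m a - red m b ∈ hole n S m l a := by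
    intro a b ha hb hv
    unfold hole
    rw [Finset.mem_image]
    refine ⟨a - b, ?_, red_sub a b⟩
    rw [Finset.mem_filter]
    refine ⟨?_, hv⟩
    rw [mem_zball le_rfl, toE_sub]
    exact (norm_sub_le _ _).trans (by linarith)
  by_cases hw : z - z' = 0
  · exact Or.inl (hmem z z' h1 h2 (Or.inl hw))
  · by_cases h3 : (l / 2) * ‖toE (z - z')‖ ^ 2 < inner ℝ (toE z) (toE (z - z'))
    · exact Or.inl (hmem z z' h1 h2 (Or.inr h3))
    · refine Or.inr (hmem z' z h2 h1 (Or.inr ?_))
      have h4 := not_lt.1 h3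
      have h5 : ‖toE (z - z')‖ ^ 2 = inner ℝ (toE z) (toE (z - z')) +
          inner ℝ (toE z') (toE (z' - z)) := by
        have e : toE (z' - z) = -toE (z - z') := by rw [← toE_neg, neg_sub]
        rw [e, inner_neg_right, ← sub_eq_add_neg, ← inner_sub_left, ← toE_sub,
          real_inner_self_eq_norm_sq]
      have h6 : ‖toE (z' - z)‖ = ‖toE (z - z')‖ := by
        rw [← neg_sub z z', toE_neg, norm_neg]
      rw [h6]
      have h7 : 0 < ‖toE (z - z')‖ := by
        rw [norm_pos_iff]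
        intro h8
        apply hw
        funext i
        have h9 := abs_le_norm (z - z') i
        rw [h8, norm_zero] at h9
        have h10 : ((z - z') i : ℝ) = 0 := abs_nonpos_iff.1 h9
        exact_mod_cast h10
      have h8 : l * ‖toE (z - z')‖ ^ 2 < 1 * ‖toE (z - z')‖ ^ 2 :=
        mul_lt_mul_of_pos_right hl1 (by positivity)
      linarith

end Pool.Agent.Lib.VC
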