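import Mathlib

/-!
Row Ge: the geometric inequality.

PROOF. `K = k + 1`, `m = |image f|`, `q v = p v - mean p`.
* `∑_u ∑_v ⟪a u - a v, b u - b v⟫ = 2 K ∑_v ⟪a v, b v - mean b⟫` (`bil`).
* `⟪ξ u - ξ v, p u - p v⟫ ≥ (1 - l) ‖p u - p v‖²`, so `(1 - l) ∑ ‖q v‖² ≤ ∑ ⟪ξ v, q v⟫`.
* Since `q` is constant on the blocks of `f` and has sum `0`, `∑ ⟪y v, q v⟫ = ∑ ⟪G v, q v⟫` with
  `G v = ∑_u x v u • y u`, `x v u = [f u = f v] / c v - 1 / K`, `c v` the size of the block of `v`.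
  As `∑_u x v u = 0`, `‖G v‖² = (t² / 2) ∑_u (x v u)² = (t² / 2) (1 / c v - 1 / K)`, with the sum
  `(t² / 2) (m - 1)` over `v`.
* Cauchy-Schwarz.
-/

set_option autoImplicit false

namespace Pool.Agent.Lib.VC

open Finset

namespace Geo

variable {k n : ℕ}

theorem bil (a b : Fin (k + 1) → EuclideanSpace ℝ (Fin n)) :
    ∑ u, ∑ v, (inner ℝ (a u - a v) (b u - b v) : ℝ) =
      2 * ((k : ℝ) + 1) * ∑ v, (inner ℝ (a v) (b v - (1 / ((k : ℝ) + 1)) • ∑ w, b w) : ℝ) := by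
  have hK : ((k : ℝ) + 1) ≠ 0 := by positivity
  have h1 : ∀ u v, (inner ℝ (a u - a v) (b u - b v) : ℝ) =
      inner ℝ (a u) (b u) - inner ℝ (a u) (b v) - (inner ℝ (a v) (b u) - inner ℝ (a v) (b v)) := by
    intro u v
    rw [inner_sub_left, inner_sub_right, inner_sub_right]
  simp_rw [h1, sum_sub_distrib]
  have h2 : ∑ u, ∑ v, (inner ℝ (a u) (b v) : ℝ) = inner ℝ (∑ u, a u) (∑ v, b v) := by
    rw [sum_inner]
    refine sum_congr rfl fun u _ => ?_
    rw [inner_sum]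
  have h3 : ∑ u, ∑ v, (inner ℝ (a v) (b u) : ℝ) = inner ℝ (∑ u, a u) (∑ v, b v) := by
    rw [sum_comm]
    exact h2
  have h4 : ∑ v, (inner ℝ (a v) (b v - (1 / ((k : ℝ) + 1)) • ∑ w, b w) : ℝ) =
      ∑ v, (inner ℝ (a v) (b v) : ℝ) - (1 / ((k : ℝ) + 1)) * inner ℝ (∑ u, a u) (∑ v, b v) := by
    simp_rw [inner_sub_right, sum_sub_distrib, inner_smul_right]
    rw [← mul_sum, sum_inner]
  rw [h2, h3, h4]
  simp only [sum_const, card_univ, Fintype.card_fin, nsmul_eq_mul]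
  rw [← mul_sum]
  push_cast
  field_simp
  ring

theorem norm_comb {t : ℝ} (y : Fin (k + 1) → EuclideanSpace ℝ (Fin n)) (hy : ∀ u v, u ≠ v → ‖y u - y v‖ = t)
    (x : Fin (k + 1) → ℝ) (hx : ∑ u, x u = 0) :
    ‖∑ u, x u • y u‖ ^ 2 = t ^ 2 / 2 * ∑ u, x u ^ 2 := by
  have h1 : ∀ u v, (inner ℝ (y u) (y v) : ℝ) =
      (‖y u‖ ^ 2 + ‖y v‖ ^ 2 - (if u = v then 0 else t ^ 2)) / 2 := by
    intro u v
    by_cases h : u = v
    · subst h
      rw [if_pos rfl, real_inner_self_eq_norm_sq]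
      ring
    · rw [if_neg h]
      have h2 := norm_sub_sq_real (y u) (y v)
      rw [hy u v h] at h2
      linarith
  have h2 : ‖∑ u, x u • y u‖ ^ 2 = ∑ u, ∑ v, x u * (x v * inner ℝ (y u) (y v)) := by
    rw [← real_inner_self_eq_norm_sq, sum_inner]
    refine sum_congr rfl fun u _ => ?_
    rw [inner_smul_left, inner_sum, mul_sum]
    refine sum_congr rfl fun v _ => ?_
    rw [inner_smul_right]
    simp
  rw [h2]
  have h3 : ∀ u v, x u * (x v * (inner ℝ (y u) (y v) : ℝ)) =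
      (x u * ‖y u‖ ^ 2) * x v / 2 + x u * (x v * ‖y v‖ ^ 2) / 2 -
        (x u * x v * t ^ 2 / 2) + (if u = v then x u * x v * t ^ 2 / 2 else 0) := by
    intro u v
    rw [h1]
    split_ifs <;> ring
  simp_rw [h3, sum_add_distrib, sum_sub_distrib, sum_add_distrib]
  have e1 : ∑ u, ∑ v, (x u * ‖y u‖ ^ 2) * x v / 2 = 0 := by
    refine sum_eq_zero fun u _ => ?_
    rw [← sum_div, ← mul_sum, hx]
    simp
  have e2 : ∑ u, ∑ v, x u * (x v * ‖y v‖ ^ 2) / 2 = 0 := by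
    rw [sum_comm]
    refine sum_eq_zero fun v _ => ?_
    rw [← sum_div, ← sum_mul, hx]
    simp
  have e3 : ∑ u, ∑ v, (x u * x v * t ^ 2 / 2) = 0 := by
    refine sum_eq_zero fun u _ => ?_
    rw [← sum_div, ← sum_mul, ← mul_sum, hx]
    simp
  have e4 : ∑ u, ∑ v, (if u = v then x u * x v * t ^ 2 / 2 else 0) = t ^ 2 / 2 * ∑ u, x u ^ 2 := by
    rw [mul_sum]
    refine sum_congr rfl fun u _ => ?_
    rw [sum_ite_eq univ u]
    simp
    ring
  rw [e1, e2, e3, e4]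
  ring

theorem sum_inv_card {ι : Type} [DecidableEq ι] (f : Fin (k + 1) → ι) :
    ∑ v, (1 / (((univ.filter fun u => f u = f v).card : ℕ) : ℝ)) = ((univ.image f).card : ℝ) := by
  rw [← sum_fiberwise_of_maps_to (t := univ.image f) (g := f)
    (fun v _ => mem_image_of_mem f (mem_univ v))]
  have h1 : ∀ b ∈ univ.image f, ∑ v ∈ univ.filter (fun v => f v = b),
      (1 / (((univ.filter fun u => f u = f v).card : ℕ) : ℝ)) = 1 := by
    intro b hb
    obtain ⟨v0, _, hv0⟩ := mem_image.mp hb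
    have h2 : ∀ v ∈ univ.filter (fun v => f v = b),
        (1 / (((univ.filter fun u => f u = f v).card : ℕ) : ℝ)) =
          1 / (((univ.filter fun u => f u = b).card : ℕ) : ℝ) := by
      intro v hv
      rw [(mem_filter.mp hv).2]
    rw [sum_congr rfl h2, sum_const, nsmul_eq_mul]
    have h3 : 0 < (univ.filter fun u => f u = b).card :=
      card_pos.mpr ⟨v0, mem_filter.mpr ⟨mem_univ _, hv0⟩⟩
    have h4 : (((univ.filter fun u => f u = b).card : ℕ) : ℝ) ≠ 0 := by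
      exact_mod_cast h3.ne'
    field_simp
  rw [sum_congr rfl h1]
  simp

end Geo

open Geo

theorem spread_le {k n : ℕ} {ι : Type} [DecidableEq ι] (f : Fin (k + 1) → ι)
    (y ξ p : Fin (k + 1) → EuclideanSpace ℝ (Fin n)) {t δ l : ℝ} (hl : 0 < l) (hl1 : l < 1)
    (ht : 0 ≤ t) (hδ : 0 ≤ δ) (hy : ∀ u v, u ≠ v → ‖y u - y v‖ = t)
    (hξ : ∀ u, ‖y u - ξ u‖ ≤ δ) (hp : ∀ u v, f u = f v → p u = p v)
    (hV : ∀ u v, inner ℝ (ξ u - p u) (p v - p u) ≤ (l / 2) * ‖p v - p u‖ ^ 2) :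
    (1 / (2 * ((k : ℝ) + 1))) * ∑ u, ∑ v, ‖p u - p v‖ ^ 2
      ≤ (((univ.image f).card : ℝ) - 1) * ((t / √2 + √((k : ℝ) + 1) * δ) / (1 - l)) ^ 2 := by
  have hK : (0 : ℝ) < (k : ℝ) + 1 := by positivity
  set m : ℝ := ((univ.image f).card : ℝ) with hm
  set q : Fin (k + 1) → EuclideanSpace ℝ (Fin n) :=
    fun v => p v - (1 / ((k : ℝ) + 1)) • ∑ w, p w with hq
  set Q : ℝ := ∑ v, ‖q v‖ ^ 2 with hQ
  have hQ0 : 0 ≤ Q := sum_nonneg fun v _ => by positivity
  have hpq : ∀ u v, p u - p v = q u - q v := by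
    intro u v
    simp only [hq]
    abel
  -- the left side is `Q`
  have hL : ∑ u, ∑ v, ‖p u - p v‖ ^ 2 = 2 * ((k : ℝ) + 1) * Q := by
    have h := bil q p
    have e1 : ∑ u, ∑ v, (inner ℝ (q u - q v) (p u - p v) : ℝ) = ∑ u, ∑ v, ‖p u - p v‖ ^ 2 := by
      refine sum_congr rfl fun u _ => sum_congr rfl fun v _ => ?_
      rw [← hpq, real_inner_self_eq_norm_sq]
    have e2 : ∑ v, (inner ℝ (q v) (p v - (1 / ((k : ℝ) + 1)) • ∑ w, p w) : ℝ) = Q := by
      refine sum_congr rfl fun v _ => ?_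
      rw [show p v - (1 / ((k : ℝ) + 1)) • ∑ w, p w = q v from rfl, real_inner_self_eq_norm_sq]
    rw [e1, e2] at h
    exact h
  have hLQ : (1 / (2 * ((k : ℝ) + 1))) * ∑ u, ∑ v, ‖p u - p v‖ ^ 2 = Q := by
    rw [hL]
    field_simp
  rw [hLQ]
  -- number of blocks
  have hm1 : 1 ≤ m := by
    have h : 1 ≤ (univ.image f).card := card_pos.mpr ⟨f 0, mem_image_of_mem f (mem_univ 0)⟩
    rw [hm]
    exact_mod_cast h
  rcases eq_or_lt_of_le hQ0 with hQz | hQpos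
  · rw [← hQz]
    have : 0 ≤ m - 1 := by linarith
    positivity
  have hm2 : 2 ≤ m := by
    by_contra hcon
    have h1 : (univ.image f).card ≤ 1 := by
      by_contra h2
      have h3 : 2 ≤ (univ.image f).card := by omega
      exact hcon (by rw [hm]; exact_mod_cast h3)
    have h2 : ∀ u v, p u - p v = 0 := by
      intro u v
      rw [sub_eq_zero]
      exact hp u v (card_le_one.mp h1 _ (mem_image_of_mem f (mem_univ u)) _
        (mem_image_of_mem f (mem_univ v)))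
    have h3 : ∑ u, ∑ v, ‖p u - p v‖ ^ 2 = 0 :=
      sum_eq_zero fun u _ => sum_eq_zero fun v _ => by rw [h2]; simp
    rw [hL] at h3
    have : 0 < 2 * ((k : ℝ) + 1) * Q := by positivity
    linarith
  -- (1)
  have h1 : (1 - l) * Q ≤ ∑ v, (inner ℝ (ξ v) (q v) : ℝ) := by
    have hb := bil ξ p
    have e2 : ∑ v, (inner ℝ (ξ v) (p v - (1 / ((k : ℝ) + 1)) • ∑ w, p w) : ℝ) =
        ∑ v, (inner ℝ (ξ v) (q v) : ℝ) := rfl
    rw [e2] at hb
    have hle : ∑ u, ∑ v, (1 - l) * ‖p u - p v‖ ^ 2 ≤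
        ∑ u, ∑ v, (inner ℝ (ξ u - ξ v) (p u - p v) : ℝ) := by
      refine sum_le_sum fun u _ => sum_le_sum fun v _ => ?_
      have a1 := hV u v
      have a2 := hV v u
      have a3 : (inner ℝ (ξ u - ξ v) (p u - p v) : ℝ) =
          ‖p u - p v‖ ^ 2 - inner ℝ (ξ u - p u) (p v - p u) - inner ℝ (ξ v - p v) (p u - p v) := by
        rw [← real_inner_self_eq_norm_sq]
        have b1 : ξ u - ξ v = (p u - p v) + (ξ u - p u) - (ξ v - p v) := by abel
        have b2 : p v - p u = -(p u - p v) := by abel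
        rw [b1, inner_sub_left, inner_add_left, b2, inner_neg_right]
        ring
      have a4 : ‖p v - p u‖ = ‖p u - p v‖ := norm_sub_rev _ _
      rw [a4] at a1
      rw [a3]
      linarith
    simp_rw [← mul_sum] at hle
    rw [hL, hb] at hle
    have h5 : 2 * ((k : ℝ) + 1) * ((1 - l) * Q) ≤
        2 * ((k : ℝ) + 1) * ∑ v, (inner ℝ (ξ v) (q v) : ℝ) := by
      calc 2 * ((k : ℝ) + 1) * ((1 - l) * Q) = (1 - l) * (2 * ((k : ℝ) + 1) * Q) := by ring
        _ ≤ _ := hle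
    exact le_of_mul_le_mul_left h5 (by positivity)
  -- the error term
  have h2 : ∑ v, (inner ℝ (ξ v - y v) (q v) : ℝ) ≤ √((k : ℝ) + 1) * δ * √Q := by
    have e1 : ∑ v, (inner ℝ (ξ v - y v) (q v) : ℝ) ≤ ∑ v, ‖ξ v - y v‖ * ‖q v‖ :=
      sum_le_sum fun v _ => real_inner_le_norm _ _
    have e2 := Real.sum_mul_le_sqrt_mul_sqrt univ (fun v => ‖ξ v - y v‖) (fun v => ‖q v‖)
    have e3 : √(∑ v, ‖ξ v - y v‖ ^ 2) ≤ √((k : ℝ) + 1) * δ := by
      rw [← Real.sqrt_sq hδ, ← Real.sqrt_mul (by positivity)]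
      refine Real.sqrt_le_sqrt ?_
      calc ∑ v, ‖ξ v - y v‖ ^ 2 ≤ ∑ _v : Fin (k + 1), δ ^ 2 := by
            refine sum_le_sum fun v _ => ?_
            rw [norm_sub_rev]
            exact pow_le_pow_left₀ (norm_nonneg _) (hξ v) 2
        _ = ((k : ℝ) + 1) * δ ^ 2 := by simp
    calc ∑ v, (inner ℝ (ξ v - y v) (q v) : ℝ) ≤ ∑ v, ‖ξ v - y v‖ * ‖q v‖ := e1
      _ ≤ √(∑ v, ‖ξ v - y v‖ ^ 2) * √(∑ v, ‖q v‖ ^ 2) := e2
      _ ≤ √((k : ℝ) + 1) * δ * √Q := mul_le_mul_of_nonneg_right e3 (Real.sqrt_nonneg _)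
  -- the main term
  set c : Fin (k + 1) → ℝ := fun v => (((univ.filter fun u => f u = f v).card : ℕ) : ℝ) with hc
  have hc0 : ∀ v, 0 < c v := by
    intro v
    have : 0 < (univ.filter fun u => f u = f v).card :=
      card_pos.mpr ⟨v, mem_filter.mpr ⟨mem_univ _, rfl⟩⟩
    simp only [hc]
    exact_mod_cast this
  set x : Fin (k + 1) → Fin (k + 1) → ℝ :=
    fun v u => (if f u = f v then 1 / c v else 0) - 1 / ((k : ℝ) + 1) with hx
  set G : Fin (k + 1) → EuclideanSpace ℝ (Fin n) := fun v => ∑ u, x v u • y u with hG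
  have hind : ∀ v, ∑ u, (if f u = f v then 1 / c v else 0) = 1 := by
    intro v
    rw [← sum_filter, sum_const, nsmul_eq_mul]
    have := (hc0 v).ne'
    change c v * (1 / c v) = 1
    field_simp
  have hx0 : ∀ v, ∑ u, x v u = 0 := by
    intro v
    simp only [hx, sum_sub_distrib]
    rw [hind v]
    simp
    field_simp
    simp
  have hx2 : ∀ v, ∑ u, x v u ^ 2 = 1 / c v - 1 / ((k : ℝ) + 1) := by
    intro v
    have e1 : ∀ u, x v u ^ 2 = (1 / c v - 2 / ((k : ℝ) + 1)) * (if f u = f v then 1 / c v else 0) +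
        (1 / ((k : ℝ) + 1)) ^ 2 := by
      intro u
      simp only [hx]
      split_ifs <;> ring
    simp_rw [e1, sum_add_distrib, ← mul_sum]
    rw [hind v]
    simp only [sum_const, card_univ, Fintype.card_fin, nsmul_eq_mul]
    push_cast
    field_simp
    ring
  have hG2 : ∑ v, ‖G v‖ ^ 2 = t ^ 2 / 2 * (m - 1) := by
    have e1 : ∀ v, ‖G v‖ ^ 2 = t ^ 2 / 2 * (1 / c v - 1 / ((k : ℝ) + 1)) := by
      intro v
      rw [← hx2 v]
      exact norm_comb y hy (x v) (hx0 v)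
    simp_rw [e1, ← mul_sum, sum_sub_distrib]
    congr 1
    have e2 : ∑ v, 1 / c v = m := sum_inv_card f
    rw [e2]
    simp
    field_simp
  have hqsum : ∑ v, q v = 0 := by
    simp only [hq, sum_sub_distrib, sum_const, card_univ, Fintype.card_fin]
    rw [← Nat.cast_smul_eq_nsmul ℝ, smul_smul]
    push_cast
    rw [mul_one_div_cancel hK.ne', one_smul, sub_self]
  have hqb : ∀ u v, f u = f v → q u = q v := by
    intro u v huv
    simp only [hq]
    rw [hp u v huv]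
  have h3 : ∑ v, (inner ℝ (y v) (q v) : ℝ) = ∑ v, inner ℝ (G v) (q v) := by
    have e1 : ∀ v, (inner ℝ (G v) (q v) : ℝ) =
        ∑ u, (if f u = f v then 1 / c v * inner ℝ (y u) (q v) else 0) -
          1 / ((k : ℝ) + 1) * ∑ u, inner ℝ (y u) (q v) := by
      intro v
      simp only [hG]
      rw [sum_inner, mul_sum, ← sum_sub_distrib]
      refine sum_congr rfl fun u _ => ?_
      rw [inner_smul_left]
      simp only [hx, conj_trivial]
      split_ifs <;> ring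
    simp_rw [e1, sum_sub_distrib]
    have e2 : ∑ v, 1 / ((k : ℝ) + 1) * ∑ u, (inner ℝ (y u) (q v) : ℝ) = 0 := by
      rw [← mul_sum, sum_comm]
      have : ∑ u, ∑ v, (inner ℝ (y u) (q v) : ℝ) = 0 := by
        refine sum_eq_zero fun u _ => ?_
        rw [← inner_sum, hqsum, inner_zero_right]
      rw [this, mul_zero]
    rw [e2, sub_zero, sum_comm]
    refine sum_congr rfl fun u _ => ?_
    have e3 : ∀ v, (if f u = f v then 1 / c v * (inner ℝ (y u) (q v) : ℝ) else 0) =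
        (if f v = f u then 1 / c u * (inner ℝ (y u) (q u) : ℝ) else 0) := by
      intro v
      by_cases h : f u = f v
      · rw [if_pos h, if_pos h.symm, hqb u v h]
        have : c u = c v := by
          simp only [hc]
          rw [h]
        rw [this]
      · rw [if_neg h, if_neg (fun h' => h h'.symm)]
    simp_rw [e3]
    rw [← sum_filter, sum_const, nsmul_eq_mul]
    have := (hc0 u).ne'
    change inner ℝ (y u) (q u) = c u * (1 / c u * (inner ℝ (y u) (q u) : ℝ))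
    field_simp
  have h4 : ∑ v, (inner ℝ (y v) (q v) : ℝ) ≤ √(m - 1) * (t / √2) * √Q := by
    rw [h3]
    have e1 : ∑ v, (inner ℝ (G v) (q v) : ℝ) ≤ ∑ v, ‖G v‖ * ‖q v‖ :=
      sum_le_sum fun v _ => real_inner_le_norm _ _
    have e2 := Real.sum_mul_le_sqrt_mul_sqrt univ (fun v => ‖G v‖) (fun v => ‖q v‖)
    have e3 : √(∑ v, ‖G v‖ ^ 2) = √(m - 1) * (t / √2) := by
      rw [hG2, mul_comm, Real.sqrt_mul (by linarith), Real.sqrt_div (by positivity),
        Real.sqrt_sq ht]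
    calc ∑ v, (inner ℝ (G v) (q v) : ℝ) ≤ ∑ v, ‖G v‖ * ‖q v‖ := e1
      _ ≤ √(∑ v, ‖G v‖ ^ 2) * √(∑ v, ‖q v‖ ^ 2) := e2
      _ = √(m - 1) * (t / √2) * √Q := by rw [e3]
  -- assembly
  have h5 : ∑ v, (inner ℝ (ξ v) (q v) : ℝ) =
      ∑ v, (inner ℝ (y v) (q v) : ℝ) + ∑ v, (inner ℝ (ξ v - y v) (q v) : ℝ) := by
    rw [← sum_add_distrib]
    refine sum_congr rfl fun v _ => ?_
    rw [inner_sub_left]
    ring
  have hs1 : 1 ≤ √(m - 1) := by
    rw [Real.one_le_sqrt]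
    linarith
  have h6 : (1 - l) * Q ≤ √(m - 1) * (t / √2 + √((k : ℝ) + 1) * δ) * √Q := by
    have e1 : √((k : ℝ) + 1) * δ * √Q ≤ √(m - 1) * (√((k : ℝ) + 1) * δ * √Q) :=
      le_mul_of_one_le_left (by positivity) hs1
    calc (1 - l) * Q ≤ ∑ v, (inner ℝ (ξ v) (q v) : ℝ) := h1
      _ ≤ √(m - 1) * (t / √2) * √Q + √((k : ℝ) + 1) * δ * √Q := by
          rw [h5]
          exact add_le_add h4 h2
      _ ≤ √(m - 1) * (t / √2) * √Q + √(m - 1) * (√((k : ℝ) + 1) * δ * √Q) := by linarith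
      _ = √(m - 1) * (t / √2 + √((k : ℝ) + 1) * δ) * √Q := by ring
  have hsQ : 0 < √Q := Real.sqrt_pos.mpr hQpos
  have h7 : √Q ≤ √(m - 1) * ((t / √2 + √((k : ℝ) + 1) * δ) / (1 - l)) := by
    have hl' : 0 < 1 - l := by linarith
    rw [← mul_div_assoc, le_div_iff₀ hl']
    have e1 : (1 - l) * Q = (√Q * (1 - l)) * √Q := by
      have := Real.mul_self_sqrt hQ0
      calc (1 - l) * Q = (1 - l) * (√Q * √Q) := by rw [this]
        _ = _ := by ring
    rw [e1] at h6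
    exact le_of_mul_le_mul_right h6 hsQ
  calc Q = √Q ^ 2 := (Real.sq_sqrt hQ0).symm
    _ ≤ (√(m - 1) * ((t / √2 + √((k : ℝ) + 1) * δ) / (1 - l))) ^ 2 :=
        pow_le_pow_left₀ hsQ.le h7 2
    _ = (m - 1) * ((t / √2 + √((k : ℝ) + 1) * δ) / (1 - l)) ^ 2 := by
        rw [mul_pow, Real.sq_sqrt (by linarith)]

end Pool.Agent.Lib.VC
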