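import Pool.Agent.Lib.VC.Defs
import Pool.Agent.Lib.VC.Ge

/-!
Row Tr: from the torus to a colouring of the space. Model: `exists_colouring` in
`Lib/MP_3884c4_co/Colour.lean` (same first half).

PROOF. `c y = c0 (red m (fl (t • y)))`, where `c0 x` is an `i` with `x - g i ∈ cells`. Let `x` be a unit
simplex with one colour, `y v = t • x v`, `ξ v = fl (y v)`, `g0 = g (colour)`. For each `v` there are
`a v ∈ J`, `b v ∈ zball n S r` with `red (b v) = red (ξ v) - g0 - F (a v)` and
`F j - F (a v) ∉ hole (b v)` for `j ≠ a v`. Put `p v = ξ v - b v`, so `red (p v) = g0 + F (a v)`.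
-/

set_option autoImplicit false

namespace Pool.Agent.Lib.VC

open Finset Pool.Agent.Lib.MP_3884c4_co

theorem exists_colouring {k n S m N j : ℕ} [NeZero m] (hk : 1 ≤ k) (hn : 1 ≤ n) {t r l E : ℝ}
    (hl : 0 < l) (hl1 : l < 1) (ht : 0 < t) (hr : 0 ≤ r)
    (hcirc : 2 * ((k : ℝ) + 1) * (r + √n) ^ 2 < k * t ^ 2)
    (hS : t + 2 * √n + 2 * r ≤ S) (hm : 2 * S < m)
    (hE : ((t / √2 + √((k : ℝ) + 1) * √n) / (1 - l)) ^ 2 ≤ E)
    (F : Fin N → (Fin n → ZMod m)) (J : Finset (Fin N))
    (hJ : ∀ f : Fin (k + 1) → Fin N, (∃ v, f v ≠ f 0) → f 0 ∈ J → ¬ Bad E F f)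
    (g : Fin j → (Fin n → ZMod m)) (hg : ∀ x, ∃ i, x - g i ∈ cells S r l F J) :
    ∃ c : EuclideanSpace ℝ (Fin n) → Fin j,
      ∀ x : Fin (k + 1) → EuclideanSpace ℝ (Fin n),
        (∀ i j, i ≠ j → dist (x i) (x j) = 1) → ¬ (∀ i j, c (x i) = c (x j)) := by
  classical
  have hr0 : 0 ≤ √(n : ℝ) := Real.sqrt_nonneg _
  have hrS : r ≤ S := by linarith
  choose c hc using hg
  refine ⟨fun y => c (red m (fl (t • y))), ?_⟩
  intro x hx hmono
  set y : Fin (k + 1) → EuclideanSpace ℝ (Fin n) := fun i => t • x i with hy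
  have hyd : ∀ i j, i ≠ j → ‖y i - y j‖ = t := by
    intro i j hij
    rw [hy]
    simp only
    rw [← smul_sub, norm_smul, ← dist_eq_norm, hx i j hij, mul_one, Real.norm_of_nonneg ht.le]
  -- the data of each vertex
  set g0 := g (c (red m (fl (y 0)))) with hg0
  have hdat : ∀ i, ∃ a ∈ J, ∃ b ∈ zball n S r,
      red m (fl (y i)) - g0 - F a = red m b ∧ ∀ j, j ≠ a → F j - F a ∉ hole n S m l b := by
    intro i
    have h1 := hc (red m (fl (y i)))
    have h2 : c (red m (fl (y i))) = c (red m (fl (y 0))) := hmono i 0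
    rw [h2] at h1
    unfold cells at h1
    exact (Finset.mem_filter.1 h1).2
  choose a haJ b hb hab hh using hdat
  have hbn : ∀ i, ‖toE (b i)‖ ≤ r := fun i => (mem_zball hrS _).1 (hb i)
  set p : Fin (k + 1) → (Fin n → ℤ) := fun i => fl (y i) - b i with hp
  have hpr : ∀ i, red m (p i) = g0 + F (a i) := by
    intro i
    rw [hp]
    simp only
    rw [red_sub, ← hab i]
    abel
  have hyp : ∀ i, y i - toE (p i) = (y i - toE (fl (y i))) + toE (b i) := by
    intro i
    rw [hp]
    simp only
    rw [toE_sub]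
    abel
  have hyn : ∀ i, ‖y i - toE (p i)‖ ≤ r + √n := by
    intro i
    rw [hyp]
    calc ‖(y i - toE (fl (y i))) + toE (b i)‖ ≤ ‖y i - toE (fl (y i))‖ + ‖toE (b i)‖ := norm_add_le _ _
      _ ≤ √n + r := add_le_add (norm_sub_fl _) (hbn i)
      _ = r + √n := add_comm _ _
  have hpd : ∀ u v, p u - p v ∈ zball n S (S : ℝ) := by
    intro u v
    rw [mem_zball le_rfl, toE_sub]
    by_cases huv : u = v
    · rw [huv, sub_self, norm_zero]
      exact Nat.cast_nonneg _
    · have e : toE (p u) - toE (p v) = (y u - y v) - (y u - toE (p u)) + (y v - toE (p v)) := by abel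
      rw [e]
      calc ‖(y u - y v) - (y u - toE (p u)) + (y v - toE (p v))‖
          ≤ ‖(y u - y v) - (y u - toE (p u))‖ + ‖y v - toE (p v)‖ := norm_add_le _ _
        _ ≤ ‖y u - y v‖ + ‖y u - toE (p u)‖ + ‖y v - toE (p v)‖ := by
            gcongr
            exact norm_sub_le _ _
        _ ≤ t + (r + √n) + (r + √n) := by
            gcongr
            · exact (hyd u v huv).le
            · exact hyn u
            · exact hyn v
        _ = t + 2 * √n + 2 * r := by ring
        _ ≤ S := hS
  have hrd : ∀ u v, red m (p u - p v) = F (a u) - F (a v) := by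
    intro u v
    rw [red_sub, hpr, hpr]
    abel
  have heq : ∀ u v, a u = a v → p u = p v := by
    intro u v h
    have h0 : (0 : Fin n → ℤ) ∈ zball n S (S : ℝ) := by
      have := hpd 0 0
      rwa [sub_self] at this
    have h1 : p u - p v = 0 := by
      refine red_inj hm le_rfl le_rfl (hpd u v) h0 ?_
      rw [hrd, h, sub_self]
      funext i
      simp [red]
    exact sub_eq_zero.1 h1
  by_cases hall : ∃ v, a v ≠ a 0
  · -- two cells
    refine hJ a hall (haJ 0) ⟨fun v => p v - p 0, ⟨?_, ?_, ?_⟩, fun v => hrd v 0⟩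
    · simp
    · intro u v h
      show p u - p 0 = p v - p 0
      rw [heq u v h]
    · have h1 := spread_le a y (fun v => toE (fl (y v))) (fun v => toE (p v)) hl hl1 ht.le hr0
        (fun u v huv => hyd u v huv) (fun u => norm_sub_fl _) (fun u v h => by
          show toE (p u) = toE (p v)
          rw [heq u v h]) (fun u v => by
          show inner ℝ (toE (fl (y u)) - toE (p u)) (toE (p v) - toE (p u)) ≤
            (l / 2) * ‖toE (p v) - toE (p u)‖ ^ 2
          by_cases h : a v = a u
          · rw [heq v u h, sub_self, inner_zero_right, norm_zero]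
            simp
          · have hz : toE (fl (y u)) - toE (p u) = toE (b u) := by
              rw [hp]
              simp only
              rw [toE_sub]
              abel
            rw [hz, ← toE_sub]
            by_contra hcon
            rw [not_le] at hcon
            refine hh u (a v) h ?_
            rw [← hrd]
            unfold hole
            exact Finset.mem_image_of_mem _ (Finset.mem_filter.2 ⟨hpd v u, Or.inr hcon⟩))
      have h2 : spread (fun v => p v - p 0) =
          (1 / (2 * ((k : ℝ) + 1))) * ∑ u, ∑ v, ‖toE (p u) - toE (p v)‖ ^ 2 := by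
        unfold spread
        congr 1
        refine Finset.sum_congr rfl fun u _ => Finset.sum_congr rfl fun v _ => ?_
        show ‖toE (p u - p 0) - toE (p v - p 0)‖ ^ 2 = ‖toE (p u) - toE (p v)‖ ^ 2
        rw [toE_sub (p u) (p 0), toE_sub (p v) (p 0), sub_sub_sub_cancel_right]
      rw [h2]
      refine h1.trans ?_
      have h3 : (0 : ℝ) ≤ ((univ.image a).card : ℝ) - 1 := by
        have h4 : 1 ≤ (univ.image a).card :=
          Finset.card_pos.2 ⟨a 0, Finset.mem_image_of_mem _ (Finset.mem_univ _)⟩
        have h5 : (1 : ℝ) ≤ ((univ.image a).card : ℝ) := by exact_mod_cast h4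
        linarith
      exact mul_le_mul_of_nonneg_left hE h3
  · -- one cell
    push Not at hall
    have hfin := card_le_of_ball (univ : Finset (Fin (k + 1))) y (toE (p 0))
      (fun i _ j _ hij => hyd i j hij) (R := r + √n) (fun i _ => by
        rw [← heq i 0 (hall i)]
        exact hyn i) ⟨0, Finset.mem_univ _⟩
    rw [Finset.card_univ, Fintype.card_fin] at hfin
    push_cast at hfin
    linarith

end Pool.Agent.Lib.VC
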