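import Pool.Agent.Lib.MP_3884c4_co.Vol

/-!
Row Vq: lower bound for the number of integer points of a ball in even dimension `n = 2 h`.

PROOF. By `vol_lower` (`Lib/MP_3884c4_co/Vol.lean`), `(r - √n)^n vol(ball 0 1) ≤ |zball| vol(cell 0)`.
`vol(cell 0) = 1` (half-open unit cube), `vol(ball 0 1) = π^h / h!`, and
`h! ≤ e √h (h / e)^h` (Stirling). With `r - √n = q √n`:
`(q √(2h))^(2h) π^h / h! ≥ (2 h π)^h q^(2h) / (e √h (h/e)^h) = (2 π e)^h q^(2h) / (e √h)`.
-/

set_option autoImplicit false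

namespace Pool.Agent.Lib.VC

open Finset Pool.Agent.Lib.MP_3884c4_co MeasureTheory

private theorem volume_cell_zero (n : ℕ) : volume (cell (0 : Fin n → ℤ)) = 1 := by
  have h1 : cell (0 : Fin n → ℤ)
      = (@WithLp.ofLp 2 (Fin n → ℝ)) ⁻¹' (Set.pi Set.univ fun _ => Set.Ico (0 : ℝ) 1) := by
    ext y
    simp only [cell, Set.mem_ofPred_eq, Set.mem_preimage, Set.mem_pi, Set.mem_univ, true_imp_iff]
    rw [funext_iff]
    refine forall_congr' fun i => ?_
    simp only [fl, Pi.zero_apply]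
    rw [Int.floor_eq_iff]
    simp
  have hm : MeasurableSet (Set.pi Set.univ fun _ : Fin n => Set.Ico (0 : ℝ) 1) :=
    MeasurableSet.univ_pi fun _ => measurableSet_Ico
  rw [h1, (PiLp.volume_preserving_ofLp (Fin n)).measure_preimage hm.nullMeasurableSet,
    Real.volume_pi_Ico]
  simp

private theorem factorial_le {h : ℕ} (hh : 1 ≤ h) :
    (h.factorial : ℝ) ≤ Real.exp 1 * √(h : ℝ) * ((h : ℝ) / Real.exp 1) ^ h := by
  have h1 : Stirling.stirlingSeq h ≤ Real.exp 1 / √2 := by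
    have := Stirling.stirlingSeq'_antitone (Nat.zero_le (h - 1))
    simp only [Function.comp] at this
    rw [← Stirling.stirlingSeq_one]
    have e : (h - 1).succ = h := by omega
    rw [e] at this
    exact this
  have hpos : (0 : ℝ) < h := by exact_mod_cast hh
  have h2 : 0 < √(2 * h : ℝ) * ((h : ℝ) / Real.exp 1) ^ h := by positivity
  unfold Stirling.stirlingSeq at h1
  rw [div_le_iff₀ h2] at h1
  refine h1.trans (le_of_eq ?_)
  rw [Real.sqrt_mul (by norm_num)]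
  have h3 : (√2 : ℝ) ≠ 0 := by positivity
  field_simp

theorem card_zball_ge {h S : ℕ} (hh : 1 ≤ h) {r q : ℝ} (hq : 0 ≤ q) (hrS : r ≤ S)
    (hr : r = (q + 1) * √((2 * h : ℕ) : ℝ)) :
    (√(2 * Real.pi * Real.exp 1) * q) ^ (2 * h)
      ≤ Real.exp 1 * √(h : ℝ) * ((zball (2 * h) S r).card : ℝ) := by
  have hpos : (0 : ℝ) < h := by exact_mod_cast hh
  have hs0 : 0 ≤ √((2 * h : ℕ) : ℝ) := Real.sqrt_nonneg _
  have h0 : √((2 * h : ℕ) : ℝ) ≤ r := by
    rw [hr]
    nlinarith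
  have hfin : Module.finrank ℝ (EuclideanSpace ℝ (Fin (2 * h))) = 2 * h := finrank_euclideanSpace_fin
  have : Nontrivial (EuclideanSpace ℝ (Fin (2 * h))) :=
    Module.nontrivial_of_finrank_pos (R := ℝ) (by rw [hfin]; omega)
  have h1 := vol_lower (n := 2 * h) (S := S) (r := r) h0 hrS
  rw [volume_cell_zero, mul_one, InnerProductSpace.volume_ball_of_dim_even hfin, ENNReal.ofReal_one,
    one_pow, one_mul, ← ENNReal.ofReal_mul (pow_nonneg (by linarith) _)] at h1
  have h2 : (r - √((2 * h : ℕ) : ℝ)) ^ (2 * h) * (Real.pi ^ h / (h.factorial : ℝ))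
      ≤ ((zball (2 * h) S r).card : ℝ) := by
    rw [← ENNReal.ofReal_natCast] at h1
    exact (ENNReal.ofReal_le_ofReal_iff (by positivity)).1 h1
  have h3 : r - √((2 * h : ℕ) : ℝ) = q * √((2 * h : ℕ) : ℝ) := by
    rw [hr]
    ring
  have hf0 : (0 : ℝ) < h.factorial := by exact_mod_cast h.factorial_pos
  rw [h3, mul_pow, pow_mul (√((2 * h : ℕ) : ℝ)) 2 h, Real.sq_sqrt (by positivity), ← mul_div_assoc,
    div_le_iff₀ hf0] at h2
  have hc0 : (0 : ℝ) ≤ ((zball (2 * h) S r).card : ℝ) := by positivity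
  have h4 := h2.trans (mul_le_mul_of_nonneg_left (factorial_le hh) hc0)
  have he : (0 : ℝ) < Real.exp 1 := Real.exp_pos 1
  have h5 := mul_le_mul_of_nonneg_right h4 (show (0 : ℝ) ≤ (Real.exp 1 / h) ^ h by positivity)
  have e1 : (√(2 * Real.pi * Real.exp 1) * q) ^ (2 * h)
      = q ^ (2 * h) * ((2 * h : ℕ) : ℝ) ^ h * Real.pi ^ h * (Real.exp 1 / h) ^ h := by
    have e0 : ((2 * h : ℕ) : ℝ) ^ h * Real.pi ^ h * (Real.exp 1 / h) ^ h
        = (2 * Real.pi * Real.exp 1) ^ h := by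
      rw [← mul_pow, ← mul_pow]
      congr 1
      push_cast
      field_simp
    rw [mul_pow, pow_mul (√(2 * Real.pi * Real.exp 1)) 2 h, Real.sq_sqrt (by positivity), ← e0]
    ring
  have e2 : ((zball (2 * h) S r).card : ℝ) * (Real.exp 1 * √(h : ℝ) * ((h : ℝ) / Real.exp 1) ^ h)
        * (Real.exp 1 / h) ^ h = Real.exp 1 * √(h : ℝ) * ((zball (2 * h) S r).card : ℝ) := by
    have e3 : ((h : ℝ) / Real.exp 1) ^ h * (Real.exp 1 / h) ^ h = 1 := by
      rw [← mul_pow]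
      have : (h : ℝ) / Real.exp 1 * (Real.exp 1 / h) = 1 := by field_simp
      rw [this, one_pow]
    calc _ = ((zball (2 * h) S r).card : ℝ) * (Real.exp 1 * √(h : ℝ))
          * (((h : ℝ) / Real.exp 1) ^ h * (Real.exp 1 / h) ^ h) := by ring
      _ = _ := by rw [e3]; ring
  rw [e1]
  rw [e2] at h5
  exact h5

end Pool.Agent.Lib.VC
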