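import Pool.Agent.Lib.VC.Pk
import Pool.Agent.Lib.VC.Ho
import Pool.Agent.Lib.VC.Bs
import Pool.Agent.Lib.VC.Tr
import Pool.Agent.Lib.VC.Vq
import Pool.Agent.Lib.MP_3884c4_co.Final

/-!
# Assembly for a fixed even dimension
-/

set_option autoImplicit false

namespace Pool.Agent.Lib.VC

open Finset Pool.Agent.Lib.MP_3884c4_co

/-- the constant in front of the Gaussian sums -/
private theorem const_eq {K κ e0 s E : ℝ} {n : ℕ} (hK : 0 ≤ K) (he0 : 0 < e0)
    (hs : s = 1 / (2 * e0)) (hE : E = n * e0) :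
    Real.exp (s * E) * ((1 + √(s * K / Real.pi)) * √(Real.pi / s) * κ) ^ n
      = (√(Real.exp 1) * ((√(2 * Real.pi * e0) + √K) * κ)) ^ n := by
  have hpi := Real.pi_pos
  have h1 : Real.exp (s * E) = √(Real.exp 1) ^ n := by
    have e1 : s * E = (n : ℝ) * (1 / 2) := by
      rw [hs, hE]
      field_simp
    rw [e1, Real.exp_nat_mul]
    congr 1
    rw [Real.sqrt_eq_rpow, ← Real.exp_mul]
    norm_num
  have h2 : √(Real.pi / s) = √(2 * Real.pi * e0) := by
    congr 1
    rw [hs]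
    field_simp
  have hs0 : 0 < s := by
    rw [hs]
    positivity
  have h3 : √(s * K / Real.pi) * √(Real.pi / s) = √K := by
    rw [← Real.sqrt_mul (by positivity)]
    congr 1
    field_simp
  have h4 : (1 + √(s * K / Real.pi)) * √(Real.pi / s) = √(2 * Real.pi * e0) + √K := by
    rw [add_mul, one_mul, h3, h2]
  rw [h1, h4, mul_pow, mul_pow, mul_pow]

private theorem const_le {K κ l u L : ℝ} (hK : 0 ≤ K) (hL : 0 ≤ L) (hl : 0 < l) (hl1 : l < 1)
    (hκ : 0 ≤ κ) (hu : u = κ / (√2 * (1 - l))) :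
    √(Real.exp 1) * ((√(2 * Real.pi * ((L / √2 + √K) / (1 - l)) ^ 2) + √K) * κ)
      ≤ √(2 * Real.pi * Real.exp 1) * (u * (L + 2 * √(2 * K))) := by
  have hpi := Real.pi_gt_three
  have h1l : 0 < 1 - l := by linarith
  have h2 : (0 : ℝ) < √2 := by positivity
  have hb : 0 ≤ (L / √2 + √K) / (1 - l) := by positivity
  have e1 : √(2 * Real.pi * ((L / √2 + √K) / (1 - l)) ^ 2)
      = √(2 * Real.pi) * ((L / √2 + √K) / (1 - l)) := by
    rw [Real.sqrt_mul (by positivity), Real.sqrt_sq hb]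
  have e2 : √(2 * Real.pi * Real.exp 1) = √(2 * Real.pi) * √(Real.exp 1) :=
    Real.sqrt_mul (by positivity) _
  have h3 : (1 : ℝ) ≤ √(2 * Real.pi) := by
    rw [show (1 : ℝ) = √1 by simp]
    apply Real.sqrt_le_sqrt
    linarith
  have h4 : √K ≤ √(2 * Real.pi) * (√K / (1 - l)) := by
    have h5 : √K ≤ √K / (1 - l) := by
      rw [le_div_iff₀ h1l]
      have := Real.sqrt_nonneg K
      nlinarith
    have h6 : 0 ≤ √K / (1 - l) := by positivity
    nlinarith
  have e3 : u * (L + 2 * √(2 * K)) = ((L / √2 + √K) / (1 - l) + √K / (1 - l)) * κ := by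
    have h7 : √(2 * K) = √2 * √K := Real.sqrt_mul (by norm_num) _
    have h8 : √2 * √2 = (2 : ℝ) := Real.mul_self_sqrt (by norm_num)
    rw [hu, h7]
    field_simp
    ring
  rw [e1, e2, e3]
  have h9 : 0 ≤ √(Real.exp 1) := Real.sqrt_nonneg _
  calc √(Real.exp 1) * ((√(2 * Real.pi) * ((L / √2 + √K) / (1 - l)) + √K) * κ)
      ≤ √(Real.exp 1) * ((√(2 * Real.pi) * ((L / √2 + √K) / (1 - l))
          + √(2 * Real.pi) * (√K / (1 - l))) * κ) := by gcongr
    _ = _ := by ring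

private theorem log_le {n m S s0 h M1 : ℕ} (hm1 : 0 < m) (hnr : (n : ℝ) = 2 * h)
    (hn1 : (1 : ℝ) ≤ n) (hSr : (S : ℝ) = s0 * n) (hm : m = (2 * S + 1) * M1) :
    (n : ℝ) * Real.log m ≤ 4 * (2 * s0 + 1) * M1 * (h : ℝ) ^ 2 := by
  have hm0 : (0 : ℝ) < m := by exact_mod_cast hm1
  have h4 : Real.log m ≤ m := (Real.log_le_sub_one_of_pos hm0).trans (by linarith)
  have h5 : (m : ℝ) ≤ (2 * s0 + 1) * n * M1 := by
    rw [hm]
    push_cast
    rw [hSr]
    gcongr
    nlinarith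
  calc (n : ℝ) * Real.log m ≤ n * m := by gcongr
    _ ≤ n * ((2 * s0 + 1) * n * M1) := by gcongr
    _ = 4 * (2 * s0 + 1) * M1 * (h : ℝ) ^ 2 := by
        rw [hnr]
        ring

private theorem sqrt_le {x : ℝ} (hx : 1 ≤ x) : √x ≤ x := by
  rw [Real.sqrt_le_left (by linarith)]
  nlinarith

set_option maxHeartbeats 4000000 in
theorem colouring_even {k L : ℕ} (hk : 1 ≤ k) {l u : ℝ} (hl : 0 < l) (hl1 : l < 1)
    (hu : u = ((k : ℝ) + 1) ^ (1 / (2 * (k : ℝ))) / (√2 * (1 - l)))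
    (hL : 2 * ((k : ℝ) + 1) * (l * u * L + 1) ^ 2 < k * (L : ℝ) ^ 2) (hL2 : 1 < l * u * L) :
    ∃ C : ℝ, 0 ≤ C ∧ ∀ h : ℕ, 1 ≤ h → ∃ j : ℕ,
      (j : ℝ) ≤ 1 + C * (h : ℝ) ^ 3
        * ((u * (L + 2 * √(2 * ((k : ℝ) + 1))) + 1) / (l * u * L - 1)) ^ (2 * h) ∧
      ∃ c : EuclideanSpace ℝ (Fin (2 * h)) → Fin j,
        ∀ x : Fin (k + 1) → EuclideanSpace ℝ (Fin (2 * h)),
          (∀ i j, i ≠ j → dist (x i) (x j) = 1) → ¬ (∀ i j, c (x i) = c (x j)) := by
  classical
  have hk0 : (0 : ℝ) < k := by exact_mod_cast hk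
  set K : ℝ := (k : ℝ) + 1 with hKdef
  have hK0 : 0 < K := by positivity
  have hK1 : 1 ≤ K := by linarith
  set κ : ℝ := K ^ (1 / (2 * (k : ℝ))) with hκdef
  have hκ0 : 0 < κ := by positivity
  have h1l : 0 < 1 - l := by linarith
  have hu0 : 0 < u := by
    rw [hu]
    positivity
  have hL0 : (0 : ℝ) < L := by
    by_contra hne
    have h0 : (L : ℝ) = 0 := le_antisymm (not_lt.1 hne) (Nat.cast_nonneg _)
    rw [h0, mul_zero] at hL2
    linarith
  set q : ℝ := l * u * L - 1 with hqdef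
  have hq0 : 0 < q := by linarith
  set e0 : ℝ := ((L / √2 + √K) / (1 - l)) ^ 2 with he0def
  have he0 : 0 < e0 := by
    rw [he0def]
    have : 0 < (L : ℝ) / √2 + √K := by positivity
    positivity
  set V : ℝ := √(Real.exp 1) * ((√(2 * Real.pi * e0) + √K) * κ) with hVdef
  have hV0 : 0 < V := by
    rw [hVdef]
    have : 0 < √(2 * Real.pi * e0) := Real.sqrt_pos.2 (by have := Real.pi_pos; positivity)
    positivity
  have hVle : V ≤ √(2 * Real.pi * Real.exp 1) * (u * (L + 2 * √(2 * K))) :=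
    const_le hK0.le hL0.le hl hl1 hκ0.le hu
  set a : ℝ := (u * (L + 2 * √(2 * K)) + 1) / q with hadef
  have ha0 : 0 < a := by
    rw [hadef]
    positivity
  set C0 : ℝ := 2 + 4 * Real.exp 1 * K ^ (k + 1) with hC0def
  have hC0 : 0 < C0 := by
    rw [hC0def]
    positivity
  have hC01 : 1 ≤ C0 := by
    have : 0 ≤ 4 * Real.exp 1 * K ^ (k + 1) := by positivity
    linarith
  obtain ⟨s0, hs0⟩ := exists_nat_ge ((L : ℝ) + 2 + 2 * (l * u * L))
  have hs01 : 1 ≤ s0 := by
    have : (1 : ℝ) ≤ s0 := by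
      have : 0 ≤ l * u * (L : ℝ) := by positivity
      linarith
    exact_mod_cast this
  obtain ⟨M1, hM1⟩ := exists_nat_ge (2 * C0 * a + 1)
  have hM11 : (1 : ℝ) ≤ M1 := by
    have : 0 ≤ 2 * C0 * a := by positivity
    linarith
  refine ⟨32 * (2 * s0 + 1) * M1 * C0, by positivity, ?_⟩
  intro h hh
  have hh1 : (1 : ℝ) ≤ h := by exact_mod_cast hh
  set n : ℕ := 2 * h with hndef
  have hnr : (n : ℝ) = 2 * h := by
    rw [hndef]
    push_cast
    ring
  have hn1 : 1 ≤ n := by omega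
  have hn1r : (1 : ℝ) ≤ n := by exact_mod_cast hn1
  have hn0 : (0 : ℝ) < n := by linarith
  have hr0 : 0 < √(n : ℝ) := Real.sqrt_pos.2 hn0
  have hrn : √(n : ℝ) ≤ n := by
    rw [Real.sqrt_le_left hn0.le]
    nlinarith
  set r : ℝ := (q + 1) * √(n : ℝ) with hrdef
  have hr' : 0 ≤ r := by positivity
  have hrq : r - √(n : ℝ) = q * √(n : ℝ) := by
    rw [hrdef]
    ring
  have hrn' : √(n : ℝ) ≤ r := by
    have : 0 ≤ q * √(n : ℝ) := by positivity
    linarith
  set S : ℕ := s0 * n with hSdef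
  have hSr : (S : ℝ) = s0 * n := by
    rw [hSdef]
    push_cast
    ring
  have hS : (L : ℝ) * √(n : ℝ) + 2 * √(n : ℝ) + 2 * r ≤ S := by
    rw [hSr, hrdef, hqdef]
    calc (L : ℝ) * √(n : ℝ) + 2 * √(n : ℝ) + 2 * ((l * u * L - 1 + 1) * √(n : ℝ))
        = ((L : ℝ) + 2 + 2 * (l * u * L)) * √(n : ℝ) := by ring
      _ ≤ s0 * √(n : ℝ) := by gcongr
      _ ≤ s0 * n := by gcongr
  have hrS2 : 2 * r ≤ S := by
    have : 0 ≤ (L : ℝ) * √(n : ℝ) := by positivity
    linarith
  have hrS : r ≤ S := by linarith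
  set m : ℕ := (2 * S + 1) * M1 with hmdef
  have hM1n : 1 ≤ M1 := by exact_mod_cast hM11
  have hm : 2 * S < m := by
    rw [hmdef]
    calc 2 * S < (2 * S + 1) * 1 := by omega
      _ ≤ (2 * S + 1) * M1 := Nat.mul_le_mul_left _ hM1n
  have : NeZero m := ⟨by omega⟩
  set D := zball n S r with hD
  set N2 : ℝ := (D.card : ℝ) with hN2
  set g : ℝ := ((Fintype.card (Fin n → ZMod m) : ℕ) : ℝ) with hg
  have hgm : g = (m : ℝ) ^ n := by
    rw [hg, Fintype.card_fun, ZMod.card, Fintype.card_fin]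
    push_cast
    rfl
  have hg0 : 0 < g := by
    rw [hg]
    exact_mod_cast Fintype.card_pos
  have hN20 : 0 < N2 := by
    have h0 : (0 : Fin n → ℤ) ∈ D := by
      rw [hD, mem_zball hrS]
      have : toE (0 : Fin n → ℤ) = 0 := by
        ext i
        simp
      rw [this, norm_zero]
      exact hr'
    rw [hN2]
    exact Nat.cast_pos.2 (Finset.card_pos.2 ⟨_, h0⟩)
  -- volume bounds
  have hvol : (√(2 * Real.pi * Real.exp 1) * q) ^ n ≤ Real.exp 1 * √(h : ℝ) * N2 :=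
    card_zball_ge hh hq0.le hrS (by rw [hrdef])
  set H : ℕ := D.sup (fun z => (hole n S m l z).card) with hH
  have hHle : ∀ z ∈ D, (hole n S m l z).card ≤ H := fun z hz =>
    Finset.le_sup (f := fun z => (hole n S m l z).card) hz
  have hHr : (H : ℝ) * q ^ n ≤ N2 * (u * L + 1) ^ n := by
    have h0 : ∃ z ∈ D, (hole n S m l z).card = H := by
      have hne : D.Nonempty := Finset.card_pos.1 (Nat.cast_pos.1 (by rw [hN2] at hN20; exact hN20))
      obtain ⟨z, hz, hz'⟩ := Finset.exists_mem_eq_sup D hne (fun z => (hole n S m l z).card)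
      exact ⟨z, hz, hz'.symm⟩
    obtain ⟨z, hz, hz'⟩ := h0
    have h1 := hole_card_le (m := m) hl hrn' hrS z hz
    rw [hz', hrq] at h1
    have h2 : r / l + √(n : ℝ) = (u * L + 1) * √(n : ℝ) := by
      rw [hrdef, hqdef]
      field_simp
      ring
    rw [h2, mul_pow, mul_pow, ← mul_assoc, ← mul_assoc] at h1
    exact le_of_mul_le_mul_right h1 (pow_pos hr0 n)
  have hVn : V ^ n * q ^ n ≤ (Real.exp 1 * √(h : ℝ) * N2) * (u * (L + 2 * √(2 * K))) ^ n := by
    calc V ^ n * q ^ n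
        ≤ (√(2 * Real.pi * Real.exp 1) * (u * (L + 2 * √(2 * K)))) ^ n * q ^ n := by gcongr
      _ = (√(2 * Real.pi * Real.exp 1) * q) ^ n * (u * (L + 2 * √(2 * K))) ^ n := by
          rw [← mul_pow, ← mul_pow]
          congr 1
          ring
      _ ≤ _ := by gcongr
  have hsh : (1 : ℝ) ≤ √(h : ℝ) := by
    rw [show (1 : ℝ) = √1 by simp]
    exact Real.sqrt_le_sqrt hh1
  set X : ℝ := 2 * H + 4 * K ^ (k + 1) * V ^ n with hXdef
  have hX0 : 0 < X := by
    rw [hXdef]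
    have : 0 < 4 * K ^ (k + 1) * V ^ n := by positivity
    have : (0 : ℝ) ≤ H := Nat.cast_nonneg _
    positivity
  have hXle : X ≤ C0 * √(h : ℝ) * N2 * a ^ n := by
    have hb : (u * L + 1 : ℝ) ≤ u * (L + 2 * √(2 * K)) + 1 := by
      have : 0 ≤ u * (2 * √(2 * K)) := by positivity
      nlinarith
    have h1 : (H : ℝ) ≤ N2 * a ^ n := by
      rw [hadef, div_pow, mul_div_assoc', le_div_iff₀ (by positivity)]
      refine hHr.trans ?_
      gcongr
    have h2 : V ^ n ≤ Real.exp 1 * √(h : ℝ) * N2 * a ^ n := by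
      rw [hadef, div_pow, mul_div_assoc', le_div_iff₀ (by positivity)]
      refine hVn.trans ?_
      gcongr
      linarith
    have h3 : N2 * a ^ n ≤ √(h : ℝ) * N2 * a ^ n := by
      have : 0 ≤ N2 * a ^ n := by positivity
      nlinarith
    calc X = 2 * H + 4 * K ^ (k + 1) * V ^ n := hXdef
      _ ≤ 2 * (√(h : ℝ) * N2 * a ^ n)
          + 4 * K ^ (k + 1) * (Real.exp 1 * √(h : ℝ) * N2 * a ^ n) := by
          gcongr
          exact h1.trans h3
      _ = C0 * √(h : ℝ) * N2 * a ^ n := by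
          rw [hC0def]
          ring
  have hXg : X ≤ g := by
    have h1 : N2 ≤ (2 * S + 1) ^ n := by
      have := card_zball_le_box n S r
      rw [hN2, hD]
      exact_mod_cast this
    have h2 : √(h : ℝ) ≤ 2 ^ n := by
      have h3 : √(h : ℝ) ≤ h := by
        rw [Real.sqrt_le_left (by linarith)]
        nlinarith
      have h4 : (h : ℝ) ≤ 2 ^ h := by
        exact_mod_cast (Nat.lt_two_pow_self (n := h)).le
      have h5 : (2 : ℝ) ^ h ≤ 2 ^ n := pow_le_pow_right₀ (by norm_num) (by omega)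
      linarith
    have h3 : C0 ≤ C0 ^ n := le_self_pow₀ hC01 (by omega)
    calc X ≤ C0 * √(h : ℝ) * N2 * a ^ n := hXle
      _ ≤ C0 ^ n * 2 ^ n * (2 * S + 1) ^ n * a ^ n := by gcongr
      _ = ((2 * S + 1) * (2 * C0 * a)) ^ n := by
          rw [← mul_pow, ← mul_pow, ← mul_pow]
          congr 1
          ring
      _ ≤ ((2 * S + 1) * M1) ^ n := by
          gcongr
          linarith
      _ = g := by
          rw [hgm, hmdef]
          push_cast
          ring
  set N : ℕ := ⌊g / X⌋₊ with hN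
  have hN1 : g / X / 2 ≤ (N : ℝ) := half_le_floor (by rwa [le_div_iff₀ hX0, one_mul])
  have hN2' : (N : ℝ) * X ≤ g := by
    have := Nat.floor_le (by positivity : 0 ≤ g / X)
    rwa [le_div_iff₀ hX0] at this
  have hNH : 2 * N * H ≤ Fintype.card (Fin n → ZMod m) := by
    have h1 : (2 : ℝ) * N * H ≤ g := by
      refine le_trans ?_ hN2'
      rw [hXdef]
      have : 0 ≤ (N : ℝ) * (4 * K ^ (k + 1) * V ^ n) := by positivity
      nlinarith
    rw [hg] at h1
    exact_mod_cast h1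
  have hNV : 4 * K ^ (k + 1) * N * V ^ n ≤ g := by
    refine le_trans ?_ hN2'
    rw [hXdef]
    have : 0 ≤ (N : ℝ) * (2 * H) := by positivity
    nlinarith
  have hbad := sum_bad_le (k := k) (n := n) (m := m) (N := N) hk (E := n * e0)
    (s := 1 / (2 * e0)) (U := V ^ n) (by positivity) (by positivity)
    (le_of_eq (const_eq hK0.le he0 rfl rfl)) hNV
  obtain ⟨F, J, hJ, hcard⟩ := exists_set (G := Fin n → ZMod m) (k := k) (N := N) D (red m)
    (hole n S m l) (fun F f => Bad (n * e0) F f) H hHle hNH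
    (fun z hz w hw hzw => red_inj hm hrS hrS hz hw hzw)
    (hole_dis hl hl1 hr' hrS2) hbad
  set A := cells S r l F J with hA
  have hcard' : (N : ℝ) * N2 ≤ 4 * A.card := by
    have h1 : N * D.card ≤ 4 * A.card := by
      refine hcard.trans (le_of_eq ?_)
      refine congrArg (fun s : Finset (Fin n → ZMod m) => 4 * s.card) (Finset.ext fun x => ?_)
      rw [hA, cells]
      simp only [mem_filter, mem_univ, true_and, hD]
    rw [hN2]
    exact_mod_cast h1
  have hNpos : 0 < (N : ℝ) := lt_of_lt_of_le (by positivity) hN1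
  have hA0 : (0 : ℝ) < A.card := by
    have : 0 < (N : ℝ) * N2 := by positivity
    linarith
  set j : ℕ := ⌊Real.log g * g / A.card⌋₊ + 1 with hj
  have hj1 : Real.log g * g < j * A.card := by
    have := Nat.lt_floor_add_one (Real.log g * g / A.card)
    rw [div_lt_iff₀ hA0] at this
    rw [hj]
    push_cast
    exact this
  obtain ⟨v, hv⟩ := exists_cover A j hj1
  have hEle : (((L : ℝ) * √(n : ℝ) / √2 + √((k : ℝ) + 1) * √(n : ℝ)) / (1 - l)) ^ 2 ≤ n * e0 := by
    apply le_of_eq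
    have e1 : ((L : ℝ) * √(n : ℝ) / √2 + √((k : ℝ) + 1) * √(n : ℝ)) / (1 - l)
        = √(n : ℝ) * ((L / √2 + √K) / (1 - l)) := by
      rw [hKdef]
      ring
    rw [e1, mul_pow, Real.sq_sqrt hn0.le]
  have hcirc : 2 * ((k : ℝ) + 1) * (r + √(n : ℝ)) ^ 2 < k * ((L : ℝ) * √(n : ℝ)) ^ 2 := by
    have e1 : r + √(n : ℝ) = (l * u * L + 1) * √(n : ℝ) := by
      rw [hrdef, hqdef]
      ring
    rw [e1, mul_pow, mul_pow, Real.sq_sqrt hn0.le]
    calc 2 * ((k : ℝ) + 1) * ((l * u * L + 1) ^ 2 * n)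
        = (2 * K * (l * u * L + 1) ^ 2) * n := by rw [hKdef]; ring
      _ < (k * (L : ℝ) ^ 2) * n := mul_lt_mul_of_pos_right hL hn0
      _ = _ := by ring
  obtain ⟨c, hc⟩ := exists_colouring (k := k) (S := S) (m := m) hk hn1
    (t := (L : ℝ) * √(n : ℝ)) hl hl1 (by positivity) hr' hcirc hS hm hEle F J hJ v hv
  refine ⟨j, ?_, c, hc⟩
  have hlog0 : 0 ≤ Real.log g := by
    apply Real.log_nonneg
    rw [hg]
    exact_mod_cast Fintype.card_pos (α := Fin n → ZMod m)
  have h1 : (j : ℝ) ≤ Real.log g * g / A.card + 1 := by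
    rw [hj]
    push_cast
    have := Nat.floor_le (by positivity : 0 ≤ Real.log g * g / A.card)
    linarith
  have h2 : g / A.card ≤ 8 * (C0 * √(h : ℝ) * a ^ n) := by
    rw [div_le_iff₀ hA0]
    have h3 : g * N2 ≤ 8 * X * A.card := by
      have h4 : g ≤ 2 * N * X := by
        rw [div_div, div_le_iff₀ (by positivity)] at hN1
        linarith
      calc g * N2 ≤ (2 * N * X) * N2 := by gcongr
        _ = 2 * X * (N * N2) := by ring
        _ ≤ 2 * X * (4 * A.card) := by gcongr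
        _ = _ := by ring
    have h5 : g * N2 ≤ (8 * (C0 * √(h : ℝ) * a ^ n) * A.card) * N2 := by
      calc g * N2 ≤ 8 * X * A.card := h3
        _ ≤ 8 * (C0 * √(h : ℝ) * N2 * a ^ n) * A.card := by gcongr
        _ = _ := by ring
    exact le_of_mul_le_mul_right h5 hN20
  have h3 : Real.log g ≤ 4 * (2 * s0 + 1) * M1 * (h : ℝ) ^ 2 := by
    rw [hgm, Real.log_pow]
    exact log_le (by omega) hnr hn1r hSr hmdef
  have h4 : √(h : ℝ) ≤ h := sqrt_le hh1
  calc (j : ℝ) ≤ Real.log g * g / A.card + 1 := h1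
    _ = 1 + Real.log g * (g / A.card) := by ring
    _ ≤ 1 + (4 * (2 * s0 + 1) * M1 * (h : ℝ) ^ 2) * (8 * (C0 * h * a ^ n)) := by
        gcongr
        refine h2.trans ?_
        gcongr
    _ = _ := by ring

end Pool.Agent.Lib.VC
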