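import Mathlib

/-!
Row G1: one-dimensional Gaussian sums.

PROOF. `f x = exp (-(s (x - b)^2))` is at most 1 and `∫ f = √(π / s)`. Let `c` be the nearest integer to
`b`. For integers `y > c` one has `f y ≤ f u` for all `u` in `(y-1, y]`, for `y < c` one has `f y ≤ f u`
for all `u` in `(y, y+1]`; these intervals are disjoint. The term of `y = c` is at most 1.
-/

set_option autoImplicit false

namespace Pool.Agent.Lib.VC

open Finset

theorem sum_exp_le {s : ℝ} (hs : 0 < s) (b : ℝ) (T : Finset ℤ) :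
    ∑ y ∈ T, Real.exp (-(s * ((y : ℝ) - b) ^ 2)) ≤ √(Real.pi / s) + 1 := by
  classical
  set f : ℝ → ℝ := fun x => Real.exp (-(s * (x - b) ^ 2)) with hf
  have hf0 : ∀ x, 0 ≤ f x := fun x => (Real.exp_pos _).le
  have hf1 : ∀ x, f x ≤ 1 := by
    intro x
    refine Real.exp_le_one_iff.mpr ?_
    have : 0 ≤ s * (x - b) ^ 2 := by positivity
    linarith
  have hmono : ∀ x y : ℝ, |x - b| ≤ |y - b| → f y ≤ f x := by
    intro x y h
    refine Real.exp_le_exp.mpr ?_
    have h2 : (x - b) ^ 2 ≤ (y - b) ^ 2 := sq_le_sq.mpr h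
    have := mul_le_mul_of_nonneg_left h2 hs.le
    linarith
  have hint : MeasureTheory.Integrable f := by
    have h := (integrable_exp_neg_mul_sq hs).comp_sub_right b
    refine h.congr (Filter.Eventually.of_forall fun x => ?_)
    simp only [hf]
    congr 1
    ring
  have htot : ∫ x, f x = √(Real.pi / s) := by
    have h := MeasureTheory.integral_sub_right_eq_self (μ := MeasureTheory.volume)
      (fun x : ℝ => Real.exp (-s * x ^ 2)) b
    rw [← integral_gaussian s, ← h]
    refine MeasureTheory.integral_congr_ae (Filter.Eventually.of_forall fun x => ?_)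
    simp only [hf]
    congr 1
    ring
  set c : ℤ := round b with hc
  have hc1 : |b - (c : ℝ)| ≤ 1 / 2 := abs_sub_round b
  rw [abs_le] at hc1
  set g : ℤ → ℤ := fun y => if c < y then y - 1 else y with hg
  have hcell : ∀ y ∈ T.erase c, f y ≤ ∫ x in Set.Ioc ((g y : ℤ) : ℝ) ((g y : ℤ) + 1), f x := by
    intro y hy
    have hyc : y ≠ c := (mem_erase.mp hy).1
    have hpt : ∀ x ∈ Set.Ioc ((g y : ℤ) : ℝ) ((g y : ℤ) + 1), f y ≤ f x := by
      intro x hx
      refine hmono x y ?_
      by_cases hlt : c < y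
      · have e1 : (g y : ℤ) = y - 1 := by simp only [hg]; rw [if_pos hlt]
        rw [e1] at hx
        push_cast at hx
        have h1 : (c : ℝ) + 1 ≤ y := by exact_mod_cast hlt
        have h2 : 0 ≤ (y : ℝ) - b := by linarith
        rw [abs_of_nonneg h2, abs_le]
        constructor
        · linarith [hx.1]
        · linarith [hx.2]
      · have e1 : (g y : ℤ) = y := by simp only [hg]; rw [if_neg hlt]
        rw [e1] at hx
        have h0 : y + 1 ≤ c := by omega
        have h1 : (y : ℝ) + 1 ≤ c := by exact_mod_cast h0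
        have h2 : (y : ℝ) - b ≤ 0 := by linarith
        rw [abs_of_nonpos h2, abs_le]
        constructor
        · linarith [hx.1]
        · linarith [hx.2]
    have hle : ∫ _ in Set.Ioc ((g y : ℤ) : ℝ) ((g y : ℤ) + 1), f y ≤
        ∫ x in Set.Ioc ((g y : ℤ) : ℝ) ((g y : ℤ) + 1), f x := by
      refine MeasureTheory.setIntegral_mono_on ?_ hint.integrableOn measurableSet_Ioc hpt
      exact MeasureTheory.integrableOn_const (by simp) 
    refine le_trans (le_of_eq ?_) hle
    simp
  have hinj : Set.InjOn g (T.erase c : Finset ℤ) := by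
    intro x hx y hy hxy
    have hx' : x ≠ c := (mem_erase.mp (mem_coe.mp hx)).1
    have hy' : y ≠ c := (mem_erase.mp (mem_coe.mp hy)).1
    simp only [hg] at hxy
    split_ifs at hxy <;> omega
  have hsum : ∑ y ∈ T.erase c, f y ≤ ∫ x, f x := by
    calc ∑ y ∈ T.erase c, f y ≤ ∑ y ∈ T.erase c, ∫ x in Set.Ioc ((g y : ℤ) : ℝ) ((g y : ℤ) + 1), f x :=
          sum_le_sum hcell
      _ = ∫ x in ⋃ y ∈ T.erase c, Set.Ioc ((g y : ℤ) : ℝ) ((g y : ℤ) + 1), f x := by
          rw [MeasureTheory.integral_biUnion_finset]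
          · exact fun _ _ => measurableSet_Ioc
          · intro x hx y hy hxy
            exact Set.pairwise_disjoint_Ioc_intCast ℝ (fun h => hxy (hinj hx hy h))
          · exact fun _ _ => hint.integrableOn
      _ ≤ ∫ x, f x := MeasureTheory.setIntegral_le_integral hint (Filter.Eventually.of_forall hf0)
  have hsplit : ∑ y ∈ T, f y ≤ ∑ y ∈ T.erase c, f y + 1 := by
    by_cases hcT : c ∈ T
    · rw [← sum_erase_add T _ hcT]
      linarith [hf1 (c : ℝ)]
    · rw [erase_eq_of_notMem hcT]
      linarith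
  calc ∑ y ∈ T, Real.exp (-(s * ((y : ℝ) - b) ^ 2)) = ∑ y ∈ T, f y := rfl
    _ ≤ ∑ y ∈ T.erase c, f y + 1 := hsplit
    _ ≤ √(Real.pi / s) + 1 := by linarith [hsum, htot]

end Pool.Agent.Lib.VC
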