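import Pool.Agent.Lib.VC.Defs
import Pool.Agent.Lib.VC.Bl
import Pool.Agent.Lib.VC.Cc

/-!
Row Ls: number of admissible tuples.

PROOF. `T = image f`, `c b = #{v | f v = b}` for `b ∈ T` and `c b = 1` otherwise (`∑_T c = k + 1`),
`b0 = f 0`, `m = |T|`. For `w ∈ W` and a coordinate `i` let `y_i b = w v i` for any `v` with `f v = b`
(well defined by `Adm`), `y_i b = 0` for `b ∉ T`; `y_i b0 = 0`. The family `(y_i)_i` determines `w`, and
`spread w = ∑_i wvar T c y_i`. Choose `S` with all `|w v i| ≤ S` (`W` is finite). Then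
`|W| ≤ ∑_{w ∈ W} exp (s ((m-1) E - spread w)) ≤ exp (s (m-1) E) ∑_{(y_i)} ∏_i exp (-(s wvar T c y_i))`
`= exp (s (m-1) E) (∑_y exp (-(s wvar T c y)))^n`, then `sum_blocks_le` with `K = k + 1` and
`prod_bound`.
-/

set_option autoImplicit false

namespace Pool.Agent.Lib.VC

open Finset Pool.Agent.Lib.MP_3884c4_co

/-- sum of squared differences -/
private theorem sum_sq_diff {k : ℕ} (a : Fin (k + 1) → ℝ) :
    (1 / (2 * ((k : ℝ) + 1))) * ∑ u, ∑ v, (a u - a v) ^ 2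
      = ∑ v, a v ^ 2 - (∑ v, a v) ^ 2 / ((k : ℝ) + 1) := by
  have hk : (0 : ℝ) < (k : ℝ) + 1 := by positivity
  have h1 : ∑ u, ∑ v, (a u - a v) ^ 2
      = 2 * ((k : ℝ) + 1) * ∑ v, a v ^ 2 - 2 * (∑ v, a v) ^ 2 := by
    have h2 : ∀ u, ∑ v, (a u - a v) ^ 2
        = ((k : ℝ) + 1) * a u ^ 2 - 2 * a u * (∑ v, a v) + ∑ v, a v ^ 2 := by
      intro u
      have h3 : ∀ v, (a u - a v) ^ 2 = a u ^ 2 - 2 * a u * a v + a v ^ 2 := fun v => by ring
      rw [Finset.sum_congr rfl fun v _ => h3 v, Finset.sum_add_distrib, Finset.sum_sub_distrib,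
        Finset.sum_const, ← Finset.mul_sum, Finset.card_univ, Fintype.card_fin, nsmul_eq_mul]
      push_cast
      ring
    rw [Finset.sum_congr rfl fun u _ => h2 u, Finset.sum_add_distrib, Finset.sum_sub_distrib,
      ← Finset.mul_sum, ← Finset.sum_mul, ← Finset.mul_sum, Finset.sum_const, Finset.card_univ,
      Fintype.card_fin, nsmul_eq_mul]
    push_cast
    ring
  rw [h1]
  field_simp

private theorem spread_eq {k n : ℕ} (w : Fin (k + 1) → (Fin n → ℤ)) :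
    spread w = ∑ i, (∑ v, (w v i : ℝ) ^ 2 - (∑ v, (w v i : ℝ)) ^ 2 / ((k : ℝ) + 1)) := by
  unfold spread
  have h1 : ∀ u v, ‖toE (w u) - toE (w v)‖ ^ 2 = ∑ i, ((w u i : ℝ) - (w v i : ℝ)) ^ 2 := by
    intro u v
    rw [EuclideanSpace.norm_sq_eq]
    refine Finset.sum_congr rfl fun i _ => ?_
    rw [PiLp.sub_apply, toE_apply, toE_apply, Real.norm_eq_abs, sq_abs]
  have h2 : ∑ u, ∑ v, ‖toE (w u) - toE (w v)‖ ^ 2
      = ∑ i, ∑ u, ∑ v, ((w u i : ℝ) - (w v i : ℝ)) ^ 2 := by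
    rw [Finset.sum_congr rfl fun u _ => Finset.sum_congr rfl fun v _ => h1 u v,
      Finset.sum_congr rfl fun u _ => Finset.sum_comm, Finset.sum_comm]
  rw [h2, Finset.mul_sum]
  exact Finset.sum_congr rfl fun i _ => sum_sq_diff fun v => (w v i : ℝ)

theorem card_adm_le {k n N : ℕ} (hk : 1 ≤ k) {E s : ℝ} (hs : 0 < s) (f : Fin (k + 1) → Fin N)
    (W : Finset (Fin (k + 1) → (Fin n → ℤ))) (hW : ∀ w ∈ W, Adm E f w) :
    (W.card : ℝ) ≤ (Real.exp (s * E) * ((1 + √(s * ((k : ℝ) + 1) / Real.pi)) * √(Real.pi / s)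
      * ((k : ℝ) + 1) ^ (1 / (2 * (k : ℝ)))) ^ n) ^ ((univ.image f).card - 1) := by
  classical
  set T : Finset (Fin N) := univ.image f with hT
  set c : Fin N → ℕ := fun b => if b ∈ T then (univ.filter fun v => f v = b).card else 1 with hc
  have hcT : ∀ b ∈ T, c b = (univ.filter fun v => f v = b).card := fun b hb => by
    simp only [hc, if_pos hb]
  have hc1 : ∀ b, 1 ≤ c b := by
    intro b
    by_cases hb : b ∈ T
    · rw [hcT b hb, Nat.one_le_iff_ne_zero, Finset.card_ne_zero]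
      obtain ⟨v, _, hv⟩ := Finset.mem_image.1 hb
      exact ⟨v, Finset.mem_filter.2 ⟨Finset.mem_univ _, hv⟩⟩
    · simp only [hc, if_neg hb, le_refl]
  have hsumr : ∀ g : Fin N → ℝ, ∑ v, g (f v) = ∑ b ∈ T, (c b : ℝ) * g b := by
    intro g
    rw [Finset.sum_comp g f]
    refine Finset.sum_congr rfl fun b hb => ?_
    rw [hcT b hb, nsmul_eq_mul]
  have hsum1 : ∑ b ∈ T, (c b : ℝ) = (k : ℝ) + 1 := by
    have := hsumr (fun _ => 1)
    simp only [mul_one, Finset.sum_const, Finset.card_univ, Fintype.card_fin, nsmul_eq_mul] at this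
    rw [← this]
    push_cast
    ring
  have hsumN : ∑ b ∈ T, c b = k + 1 := by exact_mod_cast hsum1
  -- preimages
  have hpre : ∀ b : Fin N, ∃ v : Fin (k + 1), b ∈ T → f v = b := by
    intro b
    by_cases hb : b ∈ T
    · obtain ⟨v, _, hv⟩ := Finset.mem_image.1 hb
      exact ⟨v, fun _ => hv⟩
    · exact ⟨0, fun h => absurd h hb⟩
  choose pre hpre using hpre
  have hfT : ∀ v, f v ∈ T := fun v => Finset.mem_image_of_mem f (Finset.mem_univ v)
  set Φ : (Fin (k + 1) → (Fin n → ℤ)) → (Fin n → (Fin N → ℤ)) :=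
    fun w i b => if b ∈ T then w (pre b) i else 0 with hΦ
  have hΦv : ∀ w ∈ W, ∀ v i, Φ w i (f v) = w v i := by
    intro w hw v i
    simp only [hΦ, if_pos (hfT v)]
    rw [(hW w hw).2.1 (pre (f v)) v (hpre (f v) (hfT v))]
  have hinj : Set.InjOn Φ W := by
    intro w hw w' hw' h
    funext v i
    rw [← hΦv w hw v i, ← hΦv w' hw' v i, h]
  -- the bound S
  obtain ⟨S, hS⟩ : ∃ S : ℕ, ∀ w ∈ W, ∀ v i, (w v i).natAbs ≤ S := by
    refine ⟨∑ w ∈ W, ∑ v, ∑ i, (w v i).natAbs, fun w hw v i => ?_⟩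
    refine le_trans ?_ (Finset.single_le_sum (f := fun w : Fin (k + 1) → (Fin n → ℤ) =>
      ∑ v, ∑ i, (w v i).natAbs) (fun _ _ => Nat.zero_le _) hw)
    refine le_trans ?_ (Finset.single_le_sum (f := fun v => ∑ i, (w v i).natAbs)
      (fun _ _ => Nat.zero_le _) (Finset.mem_univ v))
    exact Finset.single_le_sum (f := fun i => (w v i).natAbs)
      (fun _ _ => Nat.zero_le _) (Finset.mem_univ i)
  set P : Finset (Fin N → ℤ) := Fintype.piFinset
    (fun b => if b ∈ T.erase (f 0) then Finset.Icc (-(S : ℤ)) S else {(0 : ℤ)}) with hP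
  have hΦP : ∀ w ∈ W, Φ w ∈ Fintype.piFinset (fun _ : Fin n => P) := by
    intro w hw
    rw [Fintype.mem_piFinset]
    intro i
    rw [hP, Fintype.mem_piFinset]
    intro b
    by_cases hb : b ∈ T.erase (f 0)
    · rw [if_pos hb, Finset.mem_Icc]
      have hb' := Finset.mem_of_mem_erase hb
      simp only [hΦ, if_pos hb']
      have := hS w hw (pre b) i
      omega
    · rw [if_neg hb, Finset.mem_singleton]
      by_cases hb' : b ∈ T
      · have hb0 : b = f 0 := by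
          by_contra hne
          exact hb (Finset.mem_erase.2 ⟨hne, hb'⟩)
        rw [hb0, hΦv w hw 0 i, (hW w hw).1]
        rfl
      · simp only [hΦ, if_neg hb']
  -- spread
  have hspread : ∀ w ∈ W, spread w = ∑ i, wvar T c (fun b => (Φ w i b : ℝ)) := by
    intro w hw
    rw [spread_eq]
    refine Finset.sum_congr rfl fun i _ => ?_
    have e1 : ∑ v, (w v i : ℝ) ^ 2 = ∑ b ∈ T, (c b : ℝ) * (Φ w i b : ℝ) ^ 2 := by
      rw [← hsumr fun b => (Φ w i b : ℝ) ^ 2]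
      exact Finset.sum_congr rfl fun v _ => by rw [hΦv w hw v i]
    have e2 : ∑ v, (w v i : ℝ) = ∑ b ∈ T, (c b : ℝ) * (Φ w i b : ℝ) := by
      rw [← hsumr fun b => (Φ w i b : ℝ)]
      exact Finset.sum_congr rfl fun v _ => by rw [hΦv w hw v i]
    rw [wvar, e1, e2, hsum1]
  set m : ℕ := T.card with hm
  have hm1 : 1 ≤ m := Finset.card_pos.2 ⟨f 0, hfT 0⟩
  set G : (Fin N → ℤ) → ℝ := fun y => Real.exp (-(s * wvar T c (fun b => (y b : ℝ)))) with hG
  have hG0 : ∀ y, 0 ≤ G y := fun y => (Real.exp_pos _).le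
  -- main chain
  have h1 : (W.card : ℝ) ≤ Real.exp (s * E) ^ (m - 1) * ∑ w ∈ W, ∏ i, G (Φ w i) := by
    rw [Finset.mul_sum, Finset.card_eq_sum_ones, Nat.cast_sum]
    refine Finset.sum_le_sum fun w hw => ?_
    rw [Nat.cast_one, ← Real.exp_nat_mul, hG, ← Real.exp_sum, ← Real.exp_add]
    refine Real.one_le_exp ?_
    rw [Finset.sum_neg_distrib, ← Finset.mul_sum, ← hspread w hw, Nat.cast_sub hm1, Nat.cast_one]
    have := (hW w hw).2.2
    have h2 := mul_le_mul_of_nonneg_left this hs.le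
    rw [← hT, ← hm] at h2
    linarith
  have h2 : ∑ w ∈ W, ∏ i, G (Φ w i) ≤ (∑ y ∈ P, G y) ^ n := by
    have e1 : (∑ y ∈ P, G y) ^ n = ∑ Y ∈ Fintype.piFinset (fun _ : Fin n => P), ∏ i, G (Y i) := by
      rw [← Finset.prod_univ_sum, Finset.prod_const, Finset.card_univ, Fintype.card_fin]
    rw [e1, ← Finset.sum_image (f := fun Y : Fin n → (Fin N → ℤ) => ∏ i, G (Y i)) hinj]
    refine Finset.sum_le_sum_of_subset_of_nonneg ?_ fun Y _ _ => Finset.prod_nonneg fun i _ => hG0 _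
    intro Y hY
    obtain ⟨w, hw, rfl⟩ := Finset.mem_image.1 hY
    exact hΦP w hw
  have h3 := sum_blocks_le (K := (k : ℝ) + 1) hs c hc1 (f 0) S T (hfT 0) hsum1.le
  have h4 := prod_bound hk T c (fun b _ => hc1 b) hsumN
  rw [hsum1] at h3
  set A : ℝ := (1 + √(s * ((k : ℝ) + 1) / Real.pi)) * √(Real.pi / s) with hA
  set κ : ℝ := ((k : ℝ) + 1) ^ (1 / (2 * (k : ℝ))) with hκ
  have hA0 : 0 ≤ A := by positivity
  have h5 : ∑ y ∈ P, G y ≤ (A * κ) ^ (m - 1) := by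
    rw [mul_pow]
    exact h3.trans (mul_le_mul_of_nonneg_left h4 (pow_nonneg hA0 _))
  have h6 : (0 : ℝ) ≤ ∑ y ∈ P, G y := Finset.sum_nonneg fun y _ => hG0 y
  have h7 : (0 : ℝ) ≤ Real.exp (s * E) ^ (m - 1) := pow_nonneg (Real.exp_pos _).le _
  calc (W.card : ℝ) ≤ Real.exp (s * E) ^ (m - 1) * ∑ w ∈ W, ∏ i, G (Φ w i) := h1
    _ ≤ Real.exp (s * E) ^ (m - 1) * (∑ y ∈ P, G y) ^ n := mul_le_mul_of_nonneg_left h2 h7
    _ ≤ Real.exp (s * E) ^ (m - 1) * ((A * κ) ^ (m - 1)) ^ n :=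
        mul_le_mul_of_nonneg_left (pow_le_pow_left₀ h6 h5 n) h7
    _ = (Real.exp (s * E) * (A * κ) ^ n) ^ (m - 1) := by
        rw [mul_pow (Real.exp (s * E)), ← pow_mul, ← pow_mul, mul_comm (m - 1) n]

end Pool.Agent.Lib.VC
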