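import Mathlib

/-!
Row Pk (130 lines): random centres with cells, and expurgation, in a finite abelian group.

PROOF. `g = |G|`. For `F : Fin N → G` and `i` let
`cell F i = {x | ∃ z ∈ D, x - F i = ρ z ∧ ∀ j ≠ i, F j - F i ∉ hole z}`, so `|cell F i| ≤ |D|`.
(a) For fixed `i`, `∑_F |cell F i| ≥ |D| g^N / 2`: `ρ` is injective on `D`, so `∑_F |cell F i|` is the
number of pairs `(F, z)`, `z ∈ D`, with `F j - F i ∉ hole z` for all `j ≠ i`; for a fixed `z` the number
of `F` that violate this is at most `∑_{j ≠ i} #{F | F j - F i ∈ hole z} ≤ N H g^(N-1) ≤ g^N / 2`.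
(b) For `F` let `J_F = univ \ {f 0 | f not constant, bad F f}`. Then
`∑_{i ∈ J_F} |cell F i| ≥ ∑_i |cell F i| - #{f not constant, bad F f} |D|`.
(c) Sum over `F`: `∑_F ∑_{i ∈ J_F} |cell F i| ≥ N |D| g^N / 2 - |D| ∑_f #{F | bad F f} ≥ N |D| g^N / 4`,
so some `F` has `4 ∑_{i ∈ J_F} |cell F i| ≥ N |D|`.
(d) For fixed `F` the cells are pairwise disjoint: `x - F i = ρ z`, `x - F j = ρ z'`, `i ≠ j` give
`F j - F i = ρ z - ρ z'`, which contradicts `hdis`. Hence the union over `J_F` has
`∑_{i ∈ J_F} |cell F i|` elements.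
-/

set_option autoImplicit false

namespace Pool.Agent.Lib.VC

open Finset Classical

/-- the number of functions with a given difference of two values -/
private theorem card_diff {G : Type} [AddCommGroup G] [Fintype G] {N : ℕ} {i j : Fin N} (hij : j ≠ i) (a : G) :
    Fintype.card G * (univ.filter fun F : Fin N → G => F j - F i = a).card ≤ (Fintype.card G) ^ N := by
  have h1 : ((univ : Finset G) ×ˢ (univ.filter fun F : Fin N → G => F j - F i = a)).card ≤
      (univ : Finset (Fin N → G)).card := by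
    refine card_le_card_of_injOn (fun p => Function.update p.2 j p.1) (fun _ _ => mem_univ _) ?_
    rintro ⟨b, F⟩ hF ⟨b', F'⟩ hF' h
    simp only [coe_product, Set.mem_prod, mem_coe, mem_filter, mem_univ, true_and] at hF hF'
    simp only at h
    have hb : b = b' := by
      have := congrFun h j
      simpa using this
    have hi : F i = F' i := by
      have := congrFun h i
      simpa [Function.update_of_ne hij.symm] using this
    have hFF : F = F' := by
      funext x
      by_cases hx : x = j
      · subst hx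
        have e1 : F x = a + F i := by rw [← hF]; abel
        have e2 : F' x = a + F' i := by rw [← hF']; abel
        rw [e1, e2, hi]
      · have := congrFun h x
        simpa [Function.update_of_ne hx] using this
    rw [hb, hFF]
  rw [card_product, card_univ, card_univ, Fintype.card_pi_const] at h1
  exact h1

/-- the functions without a difference in the hole -/
private theorem good_half {G : Type} [AddCommGroup G] [Fintype G] {N H : ℕ} (A : Finset G) (hA : A.card ≤ H)
    (hHN : 2 * N * H ≤ Fintype.card G) (i : Fin N) :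
    (Fintype.card G) ^ N ≤ 2 * (univ.filter fun F : Fin N → G => ∀ j, j ≠ i → F j - F i ∉ A).card := by
  have hg : 0 < Fintype.card G := Fintype.card_pos
  -- the violating functions
  have hv : Fintype.card G * (univ.filter fun F : Fin N → G => ∃ j, j ≠ i ∧ F j - F i ∈ A).card ≤
      N * H * (Fintype.card G) ^ N := by
    have h1 : (univ.filter fun F : Fin N → G => ∃ j, j ≠ i ∧ F j - F i ∈ A) ⊆
        (univ.filter fun j : Fin N => j ≠ i).biUnion fun j => A.biUnion fun a =>
          univ.filter fun F : Fin N → G => F j - F i = a := by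
      intro F hF
      obtain ⟨j, hj, hjA⟩ := (mem_filter.1 hF).2
      exact mem_biUnion.2 ⟨j, mem_filter.2 ⟨mem_univ _, hj⟩, mem_biUnion.2 ⟨_, hjA,
        mem_filter.2 ⟨mem_univ _, rfl⟩⟩⟩
    have h2 : (univ.filter fun F : Fin N → G => ∃ j, j ≠ i ∧ F j - F i ∈ A).card ≤
        ∑ j ∈ univ.filter (fun j : Fin N => j ≠ i), ∑ a ∈ A, (univ.filter fun F : Fin N → G => F j - F i = a).card :=
      (card_le_card h1).trans (card_biUnion_le.trans (sum_le_sum fun j _ => card_biUnion_le))
    calc Fintype.card G * (univ.filter fun F : Fin N → G => ∃ j, j ≠ i ∧ F j - F i ∈ A).card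
        ≤ Fintype.card G * ∑ j ∈ univ.filter (fun j : Fin N => j ≠ i), ∑ a ∈ A,
            (univ.filter fun F : Fin N → G => F j - F i = a).card := Nat.mul_le_mul_left _ h2
      _ = ∑ j ∈ univ.filter (fun j : Fin N => j ≠ i), ∑ a ∈ A, Fintype.card G *
            (univ.filter fun F : Fin N → G => F j - F i = a).card := by
          simp only [mul_sum]
      _ ≤ ∑ j ∈ univ.filter (fun j : Fin N => j ≠ i), ∑ a ∈ A, (Fintype.card G) ^ N :=
          sum_le_sum fun j hj => sum_le_sum fun a _ => card_diff (mem_filter.1 hj).2 a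
      _ = (univ.filter (fun j : Fin N => j ≠ i)).card * (A.card * (Fintype.card G) ^ N) := by
          simp only [sum_const, smul_eq_mul]
      _ ≤ N * (H * (Fintype.card G) ^ N) := by
          apply Nat.mul_le_mul
          · exact (card_filter_le _ _).trans (by simp)
          · exact Nat.mul_le_mul_right _ hA
      _ = N * H * (Fintype.card G) ^ N := by ring
  have hsum : (univ.filter fun F : Fin N → G => ∀ j, j ≠ i → F j - F i ∉ A).card +
      (univ.filter fun F : Fin N → G => ∃ j, j ≠ i ∧ F j - F i ∈ A).card = (Fintype.card G) ^ N := by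
    have h3 := card_filter_add_card_filter_not (s := (univ : Finset (Fin N → G)))
      (fun F : Fin N → G => ∀ j, j ≠ i → F j - F i ∉ A)
    rw [card_univ, Fintype.card_pi_const] at h3
    rw [← h3]
    congr 2
    ext F
    simp only [mem_filter, mem_univ, true_and]
    push Not
    rfl
  have h4 : Fintype.card G * (2 * (univ.filter fun F : Fin N → G => ∃ j, j ≠ i ∧ F j - F i ∈ A).card) ≤
      Fintype.card G * (Fintype.card G) ^ N := by
    calc Fintype.card G * (2 * (univ.filter fun F : Fin N → G => ∃ j, j ≠ i ∧ F j - F i ∈ A).card)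
        = 2 * (Fintype.card G * (univ.filter fun F : Fin N → G => ∃ j, j ≠ i ∧ F j - F i ∈ A).card) := by ring
      _ ≤ 2 * (N * H * (Fintype.card G) ^ N) := Nat.mul_le_mul_left _ hv
      _ = (2 * N * H) * (Fintype.card G) ^ N := by ring
      _ ≤ Fintype.card G * (Fintype.card G) ^ N := Nat.mul_le_mul_right _ hHN
  have h5 := Nat.le_of_mul_le_mul_left h4 hg
  omega

theorem exists_set {G : Type} [AddCommGroup G] [Fintype G] {Z : Type}
    {k N : ℕ} (D : Finset Z) (ρ : Z → G) (hole : Z → Finset G)
    (bad : (Fin N → G) → (Fin (k + 1) → Fin N) → Prop) (H : ℕ)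
    (hH : ∀ z ∈ D, (hole z).card ≤ H) (hHN : 2 * N * H ≤ Fintype.card G)
    (hρ : Set.InjOn ρ D)
    (hdis : ∀ z ∈ D, ∀ z' ∈ D, ρ z - ρ z' ∈ hole z ∨ ρ z' - ρ z ∈ hole z')
    (hbad : 4 * ∑ f ∈ (univ.filter fun f : Fin (k + 1) → Fin N => ∃ v, f v ≠ f 0),
      (univ.filter fun F : Fin N → G => bad F f).card ≤ N * (Fintype.card G) ^ N) :
    ∃ (F : Fin N → G) (J : Finset (Fin N)),
      (∀ f : Fin (k + 1) → Fin N, (∃ v, f v ≠ f 0) → f 0 ∈ J → ¬ bad F f) ∧
      N * D.card ≤ 4 * (univ.filter fun x => ∃ i ∈ J, ∃ z ∈ D, x - F i = ρ z ∧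
        ∀ j, j ≠ i → F j - F i ∉ hole z).card := by
  -- the cells
  let cell : (Fin N → G) → Fin N → Finset G := fun F i =>
    (D.filter fun z => ∀ j, j ≠ i → F j - F i ∉ hole z).image fun z => F i + ρ z
  have hcell : ∀ F i x, x ∈ cell F i ↔ ∃ z ∈ D, x - F i = ρ z ∧ ∀ j, j ≠ i → F j - F i ∉ hole z := by
    intro F i x
    simp only [cell, mem_image, mem_filter]
    constructor
    · rintro ⟨z, ⟨hz, hz'⟩, rfl⟩
      exact ⟨z, hz, by abel, hz'⟩
    · rintro ⟨z, hz, hx, hz'⟩
      exact ⟨z, ⟨hz, hz'⟩, by rw [← hx]; abel⟩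
  have hcard : ∀ F i, (cell F i).card = (D.filter fun z => ∀ j, j ≠ i → F j - F i ∉ hole z).card := by
    intro F i
    apply card_image_of_injOn
    intro z hz z' hz' h
    exact hρ (mem_filter.1 hz).1 (mem_filter.1 hz').1 (add_left_cancel h)
  have hcardD : ∀ F i, (cell F i).card ≤ D.card := fun F i => by
    rw [hcard]; exact card_filter_le _ _
  -- (a)
  have ha : ∀ i, D.card * (Fintype.card G) ^ N ≤ 2 * ∑ F : Fin N → G, (cell F i).card := by
    intro i
    have h1 : ∑ F : Fin N → G, (cell F i).card =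
        ∑ z ∈ D, (univ.filter fun F : Fin N → G => ∀ j, j ≠ i → F j - F i ∉ hole z).card := by
      simp only [hcard, card_filter]
      rw [sum_comm]
    rw [h1, mul_sum]
    calc D.card * (Fintype.card G) ^ N = ∑ z ∈ D, (Fintype.card G) ^ N := by rw [sum_const, smul_eq_mul]
      _ ≤ _ := sum_le_sum fun z hz => good_half (hole z) (hH z hz) hHN i
  -- the expurgated sets
  let B : (Fin N → G) → Finset (Fin (k + 1) → Fin N) := fun F =>
    univ.filter fun f : Fin (k + 1) → Fin N => (∃ v, f v ≠ f 0) ∧ bad F f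
  let J : (Fin N → G) → Finset (Fin N) := fun F => univ \ (B F).image fun f => f 0
  have hb : ∀ F, ∑ i, (cell F i).card ≤ ∑ i ∈ J F, (cell F i).card + (B F).card * D.card := by
    intro F
    have h1 : ∑ i, (cell F i).card = ∑ i ∈ J F, (cell F i).card + ∑ i ∈ (B F).image (fun f => f 0), (cell F i).card :=
      (sum_sdiff (subset_univ _)).symm
    rw [h1]
    apply Nat.add_le_add_left
    calc ∑ i ∈ (B F).image (fun f => f 0), (cell F i).card
        ≤ ∑ i ∈ (B F).image (fun f => f 0), D.card := sum_le_sum fun i _ => hcardD F i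
      _ = ((B F).image (fun f => f 0)).card * D.card := by rw [sum_const, smul_eq_mul]
      _ ≤ (B F).card * D.card := Nat.mul_le_mul_right _ card_image_le
  -- (c)
  have hBsum : 4 * ∑ F : Fin N → G, (B F).card ≤ N * (Fintype.card G) ^ N := by
    have h1 : ∑ F : Fin N → G, (B F).card = ∑ f ∈ (univ.filter fun f : Fin (k + 1) → Fin N => ∃ v, f v ≠ f 0),
        (univ.filter fun F : Fin N → G => bad F f).card := by
      have h2 : ∀ F : Fin N → G, (B F).card =
          ∑ f ∈ (univ.filter fun f : Fin (k + 1) → Fin N => ∃ v, f v ≠ f 0), if bad F f then 1 else 0 := by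
        intro F
        rw [← card_filter, filter_filter]
      simp only [h2, card_filter]
      rw [sum_comm]
    rw [h1]
    exact hbad
  have hc : (Fintype.card (Fin N → G)) * (N * D.card) ≤
      ∑ F : Fin N → G, 4 * ∑ i ∈ J F, (cell F i).card := by
    have h1 : 4 * ∑ F : Fin N → G, ∑ i, (cell F i).card ≤
        ∑ F : Fin N → G, (4 * ∑ i ∈ J F, (cell F i).card) + 4 * (∑ F : Fin N → G, (B F).card) * D.card := by
      calc 4 * ∑ F : Fin N → G, ∑ i, (cell F i).card
          ≤ 4 * ∑ F : Fin N → G, (∑ i ∈ J F, (cell F i).card + (B F).card * D.card) :=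
            Nat.mul_le_mul_left _ (sum_le_sum fun F _ => hb F)
        _ = _ := by rw [sum_add_distrib, ← sum_mul, mul_add, mul_sum, mul_assoc]
    have h2 : 2 * (N * D.card * (Fintype.card G) ^ N) ≤ 4 * ∑ F : Fin N → G, ∑ i, (cell F i).card := by
      rw [sum_comm]
      calc 2 * (N * D.card * (Fintype.card G) ^ N) = 2 * ∑ i : Fin N, D.card * (Fintype.card G) ^ N := by
            rw [sum_const, smul_eq_mul, card_univ, Fintype.card_fin]; ring
        _ ≤ 2 * ∑ i : Fin N, 2 * ∑ F : Fin N → G, (cell F i).card :=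
            Nat.mul_le_mul_left _ (sum_le_sum fun i _ => ha i)
        _ = _ := by rw [← mul_sum]; ring
    have h3 : 4 * (∑ F : Fin N → G, (B F).card) * D.card ≤ N * D.card * (Fintype.card G) ^ N := by
      calc 4 * (∑ F : Fin N → G, (B F).card) * D.card ≤ N * (Fintype.card G) ^ N * D.card :=
            Nat.mul_le_mul_right _ hBsum
        _ = _ := by ring
    have h4 : Fintype.card (Fin N → G) * (N * D.card) = N * D.card * (Fintype.card G) ^ N := by
      rw [Fintype.card_pi_const]; ring
    rw [h4]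
    omega
  obtain ⟨F, -, hF⟩ : ∃ F ∈ (univ : Finset (Fin N → G)), N * D.card ≤ 4 * ∑ i ∈ J F, (cell F i).card := by
    apply exists_le_of_sum_le (s := (univ : Finset (Fin N → G))) ⟨fun _ => 0, mem_univ _⟩
    rw [sum_const, smul_eq_mul, card_univ]
    exact hc
  refine ⟨F, J F, ?_, ?_⟩
  · intro f hf hfJ hbd
    have h1 : f 0 ∉ (B F).image fun f => f 0 := (mem_sdiff.1 hfJ).2
    exact h1 (mem_image.2 ⟨f, mem_filter.2 ⟨mem_univ _, hf, hbd⟩, rfl⟩)
  · have hU : (univ.filter fun x => ∃ i ∈ J F, ∃ z ∈ D, x - F i = ρ z ∧ ∀ j, j ≠ i → F j - F i ∉ hole z) =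
        (J F).biUnion (cell F) := by
      ext x
      simp only [mem_filter, mem_univ, true_and, mem_biUnion, hcell]
    rw [hU, card_biUnion]
    · exact hF
    · intro i _ j _ hij
      change Disjoint (cell F i) (cell F j)
      rw [disjoint_left]
      intro x hxi hxj
      obtain ⟨z, hz, hx, hzi⟩ := (hcell F i x).1 hxi
      obtain ⟨z', hz', hx', hzj⟩ := (hcell F j x).1 hxj
      have e1 : ρ z - ρ z' = F j - F i := by rw [← hx, ← hx']; abel
      have e2 : ρ z' - ρ z = F i - F j := by rw [← hx, ← hx']; abel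
      rcases hdis z hz z' hz' with h | h
      · rw [e1] at h
        exact hzi j hij.symm h
      · rw [e2] at h
        exact hzj i hij h

end Pool.Agent.Lib.VC
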